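import Pool.Agent.H24.HES.Num
import Pool.Agent.H26.PM.Tsp
import Pool.Agent.H24.PLN.Slp

/-!
# The sheets of a member, in a class

`sh_cls`: the coordinate `j` (`2` or `3`), the polynomial `G` of a label and of a chart, the function
`U + t V'` of a line. In a class in which the sheets are affine (`HesS`) and the velocities at a
point are not on a conic (`ConS`): the deviations and the natural coefficients of the sheets.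
-/

set_option autoImplicit false

namespace Pool.HSC

open Finset Real MvPolynomial
open Pool.Agent.H49.Ent Pool.Agent.H32.Dense Pool.STK Pool.KA Pool.KSAT Pool.K2S Pool.PB
  Pool.STAT Pool.GEN Pool.M3F Pool.KM7 Pool.S6C Pool.JPN
open Pool.PLN (Nums Dat lpt pA ConS HesS EzS ex ex_pos ex_add ex_le ex_le_one one_le_ex exp_le_ex
  two_le_ex pe_mono pe_le_add pe_marg nms_cls const_le_ex floor_le_ex)
open Pool.PLN.Dat (pA_pos px_x)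
open Pool.PM (VNum VDat MNum MDat nx nt lev lfv q2 tsp_ev)
open Pool.AFF (afv)
open Pool.GRW (TmWn)

variable {m : ℕ}

/-- The linear conics of a sample. -/
theorem gd_of {J : ℕ} {N : VNum} {φ : ℝ} {K : ℕ} {F : Fam m J} {c : ℕ → Fin m} {A : F.Ω → Prop}
    (d : VDat N φ K F c A) {j : ℕ} {D : d.V × d.U → Fin 4 → ℝ} {U V' : LnT F → ℝ}
    {η τ χ Ee : ℝ} {ω : F.Ω}
    (own : |ntc F c d.Q d.u ω j - afv (Dw d D ω) (px3 F c ω)| ≤ τ)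
    (lin : ∀ t : ℝ, |t - F.t ω| ≤ 2 / 2 ^ ⌊N.w0 * J⌋₊ → |U (slam F ⌊N.w0 * J⌋₊ ω) +
      t * V' (slam F ⌊N.w0 * J⌋₊ ω) - afv (Dw d D ω) (lpt F c ω t)| ≤ η)
    (h1 : ∀ i, |(![Dw d D ω 1 + Dw d D ω 3 * d.pl ω 1, Dw d D ω 2 + Dw d D ω 3 * d.pl ω 2,
      Dw d D ω 3 * (2 ^ ⌊N.w0 * J⌋₊ / 2 ^ d.G0)] : Fin 3 → ℝ) i| * χ ≤
      |(Dw d D ω 1 + Dw d D ω 3 * d.pl ω 1) + (Dw d D ω 2 + Dw d D ω 3 * d.pl ω 2) *
        F.d ω (c 0) + Dw d D ω 3 * (2 ^ ⌊N.w0 * J⌋₊ / 2 ^ d.G0) * d.Ez ω|)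
    (h2 : ∀ i, |(![Bw d ω 1 - d.pl ω 1, Bw d ω 2 - d.pl ω 2, 0] : Fin 3 → ℝ) i| * χ ≤
      |(Bw d ω 1 - d.pl ω 1) + (Bw d ω 2 - d.pl ω 2) * F.d ω (c 0) + 0 * d.Ez ω|)
    (ez : |d.Ez ω| ≤ Ee) : Gd d j D U V' η τ χ Ee ω := by
  have pS : (0 : ℝ) < 2 ^ ⌊N.w0 * J⌋₊ := by positivity
  have pG : (0 : ℝ) < 2 ^ d.G0 := by positivity
  have e1 : (Dw d D ω 1 + Dw d D ω 3 * d.pl ω 1) + (Dw d D ω 2 + Dw d D ω 3 * d.pl ω 2) *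
      F.d ω (c 0) + Dw d D ω 3 * (2 ^ ⌊N.w0 * J⌋₊ / 2 ^ d.G0) * d.Ez ω = Dsl d D ω := by
    unfold Dsl Pool.PLN.Dat.Ez
    field_simp
    ring
  rw [e1] at h1
  refine ⟨own, lin, h1 0, h1 1, ?_, ?_, ez⟩
  · have h3 := h1 2
    have e2 : |(![Dw d D ω 1 + Dw d D ω 3 * d.pl ω 1, Dw d D ω 2 + Dw d D ω 3 * d.pl ω 2,
      Dw d D ω 3 * (2 ^ ⌊N.w0 * J⌋₊ / 2 ^ d.G0)] : Fin 3 → ℝ) 2| =
      |Dw d D ω 3| * (2 ^ ⌊N.w0 * J⌋₊ / 2 ^ d.G0) := by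
      show |Dw d D ω 3 * (2 ^ ⌊N.w0 * J⌋₊ / 2 ^ d.G0)| = _
      rw [abs_mul, abs_of_pos (by positivity : (0 : ℝ) < 2 ^ ⌊N.w0 * J⌋₊ / 2 ^ d.G0)]
    rwa [e2] at h3
  · intro i hi
    rw [zero_mul, add_zero] at h2
    fin_cases i
    · exact absurd rfl hi
    · exact h2 0
    · exact h2 1

/-- **The sheets of a coordinate, in a class.** -/
theorem sh_cls {S : PCl m}
    (hpos : ∀ (τ : ℝ) (J : ℕ) (F : Fam m J) (A : F.Ω → Prop), S.St τ J F A → 0 < Pe F.p A)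
    {c : ℕ → Fin m} {N : VNum} {K K' : ℕ} {h e' b f : ℝ} (htw : TmWn S N.w0)
    (hez : ∀ b c₁ : ℝ, 0 < b → 0 < c₁ → EzS S c N.toNums K b c₁)
    (h0 : 0 ≤ N.w0) (h01 : N.w0 ≤ N.w1)
    (h1 : N.w1 < 1) (hg0 : N.g 0 < 1) (hg1 : N.g 1 < 1) (hh : 0 < h) (hb : 2 * h < b)
    (he : 0 < e') (hbf : b ≤ f) (hβ0 : N.w0 ≤ N.β 0) (hβ1 : N.g0 1 ≤ N.β 1) (hw : N.w0 + f ≤ 1)
    (hg : N.g0 1 + f ≤ 1) (hcon : ∀ c₁ : ℝ, 0 < c₁ → ConS S c N.toNums K h c₁)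
    (hhes : ∀ c₁ : ℝ, 0 < c₁ → HesS S c N.toNums N.toNums K K K' e' c₁) {c₀ : ℝ} (hc : 0 < c₀)
    {φ₁ : ℝ} (hφ₁ : 0 < φ₁) :
    ∃ φ : ℝ, 0 < φ ∧ φ ≤ φ₁ ∧ Bas S (fun J F A => ∀ (d : VDat N φ K F c A) (j : ℕ)
      (G : d.V × d.U → MvPolynomial (Fin 3) ℝ) (U V' : LnT F → ℝ) (ε err : ℝ), 0 ≤ ε →
      (∀ v, (G v).totalDegree ≤ K') →
      (∀ ω, A ω → |U (slam F ⌊N.w0 * J⌋₊ ω) + F.t ω * V' (slam F ⌊N.w0 * J⌋₊ ω) -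
        eval (lpt F c ω (F.t ω)) (G (d.z (ptr F J ω), d.u (ptr F J ω)))| ≤ ε) →
      (∀ ω, A ω → |ntc F c d.Q d.u ω j -
        eval (px3 F c ω) (G (d.z (ptr F J ω), d.u (ptr F J ω)))| ≤ ε) →
      (∀ ω, A ω → |ntc F c d.Q d.u ω j| ≤ 1 / 2 ^ d.gU j) →
      2 ^ d.gU j * (ex (-e') J * ε) ≤ 1 → 32 * (2 ^ d.gU j * (ex (-e') J * ε)) ≤ err →
      ex (f - b + 2 * φ) J ≤ err →
      ∃ lf : d.V → d.U → Fin 4 → ℝ, Pe (q2 F A ⌊N.w0 * J⌋₊) (fun e =>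
        ¬ (d.lb.dev c ⌊N.w0 * J⌋₊ j lf e.1 e.1 ≤ err ∧ d.lb.dev c ⌊N.w0 * J⌋₊ j lf e.1 e.2 ≤ err ∧
          ∀ i, |d.lb.sh lf e.1 e.1 i| ≤ 2 ^ ⌊b * J⌋₊ ∧ |d.lb.sh lf e.1 e.2 i| ≤ 2 ^ ⌊b * J⌋₊)) ≤
        c₀) := by
  classical
  obtain ⟨κ, hκ⟩ : ∃ κ : ℝ, κ = b - 2 * h := ⟨_, rfl⟩
  have hκ0 : 0 < κ := by
    rw [hκ]
    linarith
  obtain ⟨r, hr⟩ : ∃ r : ℝ, r = κ / 10 := ⟨_, rfl⟩
  have hr0 : 0 < r := by
    rw [hr]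
    positivity
  obtain ⟨c₁, hc₁⟩ : ∃ c₁ : ℝ, c₁ = c₀ / 9 := ⟨_, rfl⟩
  have hc₁0 : 0 < c₁ := by
    rw [hc₁]
    positivity
  obtain ⟨φa, hφa, ba⟩ := con_lin (hcon c₁ hc₁0)
  obtain ⟨φb, hφb, bb⟩ := hhes c₁ hc₁0
  obtain ⟨φc, hφc, bc⟩ := hez r c₁ hr0 hc₁0
  obtain ⟨φd, hφd, J₁, hnms⟩ := nms_cls (N := N.toNums) h0 h01 h1 hg0 hg1
  have bt := tsp_ev htw h0 (lt_of_le_of_lt h01 h1) hr0 hc₁0
  obtain ⟨φ, hφe⟩ : ∃ φ : ℝ, φ = min (min (min φa φb) (min φc φd)) (min (min φ₁ (κ / 40))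
    (min b 1)) := ⟨_, rfl⟩
  have hb0 : 0 < b := by linarith
  have hφ : 0 < φ := by
    rw [hφe]
    refine lt_min (lt_min (lt_min hφa hφb) (lt_min hφc hφd)) (lt_min (lt_min hφ₁ (by positivity))
      (lt_min hb0 one_pos))
  have u1 : φ ≤ min (min φa φb) (min φc φd) := by
    rw [hφe]
    exact min_le_left _ _
  have u2 : φ ≤ min (min φ₁ (κ / 40)) (min b 1) := by
    rw [hφe]
    exact min_le_right _ _
  have ua : φ ≤ φa := u1.trans ((min_le_left _ _).trans (min_le_left _ _))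
  have ub : φ ≤ φb := u1.trans ((min_le_left _ _).trans (min_le_right _ _))
  have uc : φ ≤ φc := u1.trans ((min_le_right _ _).trans (min_le_left _ _))
  have ud : φ ≤ φd := u1.trans ((min_le_right _ _).trans (min_le_right _ _))
  have ue : φ ≤ φ₁ := u2.trans ((min_le_left _ _).trans (min_le_left _ _))
  have uf : φ ≤ κ / 40 := u2.trans ((min_le_left _ _).trans (min_le_right _ _))
  have ug : φ ≤ b := u2.trans ((min_le_right _ _).trans (min_le_left _ _))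
  obtain ⟨J₂, hJ₂⟩ := const_le_ex 5190 (b := b - (6 * φ + 3 * r + 2 * h)) (by
    rw [hr]
    linarith)
  obtain ⟨J₃, hJ₃⟩ := const_le_ex 384 (b := b - (h + r + 6 * φ)) (by
    rw [hr]
    linarith)
  refine ⟨φ, hφ, ue, (((ba.and bb).and (bc.and bt)).and (⟨1, one_pos, 0, fun J _ F A hA =>
    hpos 1 J F A hA⟩ : Bas S (fun _ F A => 0 < Pe F.p A))).mono (max J₁ (max J₂ J₃)) ?_⟩
  rintro J hJ F A ⟨⟨⟨qa, qb⟩, qc, qt⟩, hPA⟩ d j G U V' ε err hε hdeg hex hpx hnt he1 he2 he3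
  have j1 : J ≥ J₁ := (le_max_left _ _).trans hJ
  have j2 : J ≥ J₂ := ((le_max_left _ _).trans (le_max_right _ _)).trans hJ
  have j3 : J ≥ J₃ := ((le_max_right _ _).trans (le_max_right _ _)).trans hJ
  have hJ0 : (0 : ℝ) ≤ J := Nat.cast_nonneg J
  have nm := hnms φ hφ ud J j1 d.toDat
  have hw01 : ⌊N.w0 * J⌋₊ ≤ ⌊N.w1 * J⌋₊ := nm.w01
  have hw1J : ⌊N.w1 * J⌋₊ ≤ J := nm.w1J
  have hW0J : ⌊N.w0 * J⌋₊ ≤ J := hw01.trans hw1J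
  have hlaw := isLaw_cond F.isLaw hPA
  -- the sheets
  obtain ⟨D, hD⟩ := qb (d.toDat.mono ub) ((prd d hw01 hw1J).mono ub) (fun _ => rfl) G
    (fun _ => ε) (fun s => U (lw ⌊N.w0 * J⌋₊ ⌊N.w1 * J⌋₊ s))
    (fun s => V' (lw ⌊N.w0 * J⌋₊ ⌊N.w1 * J⌋₊ s)) hdeg (by
      intro ω hω _
      rw [lw_slam hw01 hw1J]
      exact hex ω hω)
  obtain ⟨η, hη⟩ : ∃ η : ℝ, η = ex (-e') J * ε := ⟨_, rfl⟩
  have hη0 : 0 ≤ η := by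
    rw [hη]
    exact mul_nonneg (ex_pos _ _).le hε
  have hεη : ε ≤ η := by
    rw [hη]
    exact le_mul_of_one_le_left hε (one_le_ex (by linarith) J)
  rw [← hη] at he1 he2
  -- the linear conics
  have hc1 := qa (d.toDat.mono ua) (fun ξ => ![D (d.z ξ, d.u ξ) 1 + D (d.z ξ, d.u ξ) 3 *
    d.a (d.zz ξ) 1, D (d.z ξ, d.u ξ) 2 + D (d.z ξ, d.u ξ) 3 * d.a (d.zz ξ) 2,
    D (d.z ξ, d.u ξ) 3 * (2 ^ ⌊N.w0 * J⌋₊ / 2 ^ d.G0)])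
  have hc2 := qa (d.toDat.mono ua) (fun ξ => ![Bc (d.Q (d.u ξ)) 1 - d.a (d.zz ξ) 1,
    Bc (d.Q (d.u ξ)) 2 - d.a (d.zz ξ) 2, 0])
  have hc3 := qc (d.toDat.mono uc)
  have hct := qt ⌊r * J⌋₊ le_rfl
  obtain ⟨χ, hχ⟩ : ∃ χ : ℝ, χ = ex h J := ⟨_, rfl⟩
  obtain ⟨Ee, hEe⟩ : ∃ Ee : ℝ, Ee = ex (-r) J := ⟨_, rfl⟩
  obtain ⟨ρ, hρ⟩ : ∃ ρ : ℝ, ρ = 1 / 2 ^ ⌊r * J⌋₊ := ⟨_, rfl⟩
  rw [← hχ] at hc1 hc2
  rw [← hEe] at hc3
  rw [← hρ] at hct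
  have hgood : Pe (pA F A) (fun ω => ¬ Gd d j D U V' η (2 * η) χ Ee ω) ≤ 4 * c₁ := by
    refine le_trans (pe_le_add hlaw.nonneg (B := fun ω => ¬ (((prd d hw01 hw1J).mono ub).HesB
      (G (((prd d hw01 hw1J).mono ub).κ ω)) (D (((prd d hw01 hw1J).mono ub).κ ω))
      (ex (-e') J * ε) (((prd d hw01 hw1J).mono ub).κ ω) ∧
      ((prd d hw01 hw1J).mono ub).HesL (fun s => U (lw ⌊N.w0 * J⌋₊ ⌊N.w1 * J⌋₊ s))
      (fun s => V' (lw ⌊N.w0 * J⌋₊ ⌊N.w1 * J⌋₊ s)) (D (((prd d hw01 hw1J).mono ub).κ ω))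
      (ex (-e') J * ε) ω)) (C := fun ω => (¬ ∀ i, |(![Dw d D ω 1 + Dw d D ω 3 * d.pl ω 1,
      Dw d D ω 2 + Dw d D ω 3 * d.pl ω 2, Dw d D ω 3 * (2 ^ ⌊N.w0 * J⌋₊ / 2 ^ d.G0)] :
      Fin 3 → ℝ) i| * χ ≤ |(Dw d D ω 1 + Dw d D ω 3 * d.pl ω 1) + (Dw d D ω 2 +
        Dw d D ω 3 * d.pl ω 2) * F.d ω (c 0) + Dw d D ω 3 * (2 ^ ⌊N.w0 * J⌋₊ / 2 ^ d.G0) *
        d.Ez ω|) ∨ (¬ ∀ i, |(![Bw d ω 1 - d.pl ω 1, Bw d ω 2 - d.pl ω 2, 0] : Fin 3 → ℝ) i| * χ ≤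
      |(Bw d ω 1 - d.pl ω 1) + (Bw d ω 2 - d.pl ω 2) * F.d ω (c 0) + 0 * d.Ez ω|) ∨
      ¬ |d.Ez ω| ≤ Ee) ?_) ?_
    · intro ω hω hbad
      by_contra hcon2
      push Not at hcon2
      obtain ⟨⟨hB, hL⟩, hl1, hl2, hl3⟩ := hcon2
      refine hbad (gd_of d ?_ ?_ hl1 hl2 hl3)
      · have hωA := (pA_pos hω).1
        have hbx := (d.toDat.pos_bx nm hωA).mono (show (1 : ℝ) ≤ 2 by norm_num) le_rfl
        have h5 := hB (px c (ptr F J ω)) hbx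
        have h6 := hpx ω hωA
        rw [← hη] at h5
        have e1 : ntc F c d.Q d.u ω j - afv (Dw d D ω) (px3 F c ω) = (ntc F c d.Q d.u ω j -
          eval (px3 F c ω) (G (d.z (ptr F J ω), d.u (ptr F J ω)))) +
          (eval (px3 F c ω) (G (d.z (ptr F J ω), d.u (ptr F J ω))) -
            afv (Dw d D ω) (px3 F c ω)) := by ring
        rw [e1]
        refine (abs_add_le _ _).trans ((add_le_add h6 h5).trans ?_)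
        linarith
      · intro t ht
        have h5 := hL t ht
        rw [← hη] at h5
        have e1 : lw ⌊N.w0 * J⌋₊ ⌊N.w1 * J⌋₊ (slam F ⌊N.w1 * J⌋₊ ω) = slam F ⌊N.w0 * J⌋₊ ω :=
          lw_slam hw01 hw1J ω
        have e2 : |U (lw ⌊N.w0 * J⌋₊ ⌊N.w1 * J⌋₊ (slam F ⌊N.w1 * J⌋₊ ω)) +
          t * V' (lw ⌊N.w0 * J⌋₊ ⌊N.w1 * J⌋₊ (slam F ⌊N.w1 * J⌋₊ ω)) -
          afv (Dw d D ω) (lpt F c ω t)| ≤ η := h5
        rwa [e1] at e2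
    · have h5 := pe_le_add hlaw.nonneg (A := fun ω => (¬ ∀ i, |(![Dw d D ω 1 + Dw d D ω 3 *
        d.pl ω 1, Dw d D ω 2 + Dw d D ω 3 * d.pl ω 2,
        Dw d D ω 3 * (2 ^ ⌊N.w0 * J⌋₊ / 2 ^ d.G0)] : Fin 3 → ℝ) i| * χ ≤ |(Dw d D ω 1 +
        Dw d D ω 3 * d.pl ω 1) + (Dw d D ω 2 + Dw d D ω 3 * d.pl ω 2) * F.d ω (c 0) +
        Dw d D ω 3 * (2 ^ ⌊N.w0 * J⌋₊ / 2 ^ d.G0) * d.Ez ω|) ∨ (¬ ∀ i, |(![Bw d ω 1 -
        d.pl ω 1, Bw d ω 2 - d.pl ω 2, 0] : Fin 3 → ℝ) i| * χ ≤ |(Bw d ω 1 - d.pl ω 1) +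
        (Bw d ω 2 - d.pl ω 2) * F.d ω (c 0) + 0 * d.Ez ω|) ∨ ¬ |d.Ez ω| ≤ Ee)
        (fun ω _ h => h)
      have h6 := pe_le_add hlaw.nonneg (A := fun ω => (¬ ∀ i, |(![Bw d ω 1 -
        d.pl ω 1, Bw d ω 2 - d.pl ω 2, 0] : Fin 3 → ℝ) i| * χ ≤ |(Bw d ω 1 - d.pl ω 1) +
        (Bw d ω 2 - d.pl ω 2) * F.d ω (c 0) + 0 * d.Ez ω|) ∨ ¬ |d.Ez ω| ≤ Ee)
        (fun ω _ h => h)
      have h7 := hD
      have h8 := hc1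
      have h9 := hc2
      have h10 := hc3
      refine (add_le_add h7 (h5.trans (add_le_add h8 (h6.trans (add_le_add h9 h10))))).trans
        (le_of_eq ?_)
      ring
  -- the pairs
  refine ⟨shl d j D, ?_⟩
  have f1 : Pe (q2 F A ⌊N.w0 * J⌋₊) (fun e => ¬ Gd d j D U V' η (2 * η) χ Ee e.1) ≤ 4 * c₁ :=
    (le_of_eq (pe_marg (fun ω => P2_fst hlaw (slam F ⌊N.w0 * J⌋₊) ω)
      (fun ω => ¬ Gd d j D U V' η (2 * η) χ Ee ω))).trans hgood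
  have f2 : Pe (q2 F A ⌊N.w0 * J⌋₊) (fun e => ¬ Gd d j D U V' η (2 * η) χ Ee e.2) ≤ 4 * c₁ :=
    (le_of_eq (pe_marg (fun ω => P2_snd hlaw (slam F ⌊N.w0 * J⌋₊) ω)
      (fun ω => ¬ Gd d j D U V' η (2 * η) χ Ee ω))).trans hgood
  have hq := P2_isLaw hlaw (slam F ⌊N.w0 * J⌋₊)
  have f3 : Pe (q2 F A ⌊N.w0 * J⌋₊) (fun e => ¬ (d.lb.dev c ⌊N.w0 * J⌋₊ j (shl d j D) e.1 e.1 ≤
      err ∧ d.lb.dev c ⌊N.w0 * J⌋₊ j (shl d j D) e.1 e.2 ≤ err ∧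
      ∀ i, |d.lb.sh (shl d j D) e.1 e.1 i| ≤ 2 ^ ⌊b * J⌋₊ ∧
        |d.lb.sh (shl d j D) e.1 e.2 i| ≤ 2 ^ ⌊b * J⌋₊)) ≤
      Pe (q2 F A ⌊N.w0 * J⌋₊) (fun e => ¬ Gd d j D U V' η (2 * η) χ Ee e.1) +
      Pe (q2 F A ⌊N.w0 * J⌋₊) (fun e => ¬ Gd d j D U V' η (2 * η) χ Ee e.2 ∨
        ¬ ρ ≤ |nt F ⌊N.w0 * J⌋₊ e.1 - nt F ⌊N.w0 * J⌋₊ e.2|) := by
    refine pe_le_add hq.nonneg ?_
    intro e he hbad
    by_contra hcon2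
    push Not at hcon2
    obtain ⟨g1, g2, hsep⟩ := hcon2
    obtain ⟨p1, p2, hs⟩ := (P2_pos hlaw e).1 he
    have a1 := (pA_pos p1).1
    have a2 := (pA_pos p2).1
    -- the numbers
    have hb1 := (abs_le.1 (d.numU 0 (by norm_num))).1
    have hb2 := (abs_le.1 (d.numU 1 (by norm_num))).1
    have hb3 := (abs_le.1 d.numz).2
    have hW0 : (⌊N.w0 * J⌋₊ : ℝ) ≤ N.w0 * J := Nat.floor_le (mul_nonneg h0 hJ0)
    have hφJ : 0 ≤ φ * J := mul_nonneg hφ.le hJ0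
    have hθ := num_the (b := b) (h := h) (r := r) (φ := φ) (f := f) (w := N.w0) (g := N.g0 1)
      (J := J) hφ hw hg (hJ₃ J j3) (S := 2 ^ ⌊N.w0 * J⌋₊) (G := 2 ^ d.G0)
      (Λ := Real.exp (φ * J)) (ρ := ρ) (χ := χ) (by positivity) (by positivity)
      (floor_le_ex h0 J) (two_le_ex (by linarith)) (Real.exp_pos _).le (exp_le_ex hφ.le J)
      (by rw [hρ]; positivity) (by
        rw [hρ, one_div_one_div]
        exact floor_le_ex hr0.le J) hχ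
    have hG0J : (d.G0 : ℝ) ≤ J := by
      have h5 : (N.g0 1 + φ) * J ≤ 1 * J := mul_le_mul_of_nonneg_right (by linarith) hJ0
      linarith
    have hsz := num_siz (b := b) (h := h) (r := r) (φ := φ) (J := J) hφ hr0 hh (hJ₂ J j2)
      (S := 2 ^ ⌊N.w0 * J⌋₊) (G := 2 ^ d.G0) (g₀ := 2 ^ d.gU 0) (g₁ := 2 ^ d.gU 1) (T := 2 ^ J)
      (Λ := Real.exp (φ * J)) (x := 2 ^ d.gU j * η) (ρ := ρ) (χ := χ) (Ee := Ee) (by positivity)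
      (by positivity) (by positivity) (by positivity) (by positivity)
      (quo_two (by
        have h5 := mul_le_mul_of_nonneg_right hβ0 hJ0
        linarith))
      (quo_two (by
        have h5 := mul_le_mul_of_nonneg_right hβ1 hJ0
        linarith))
      (pow_le_pow_right₀ one_le_two hW0J) (pow_le_pow_right₀ one_le_two (by exact_mod_cast hG0J))
      (Real.exp_pos _).le (exp_le_ex hφ.le J) (by positivity) he1 (by rw [hρ]; positivity) (by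
        rw [hρ, one_div_one_div]
        exact floor_le_ex hr0.le J) hχ hEe
    have hth : ex (f - b + 2 * φ) J ≤ 1 := ex_le_one (by linarith) J
    obtain ⟨r1, r2, r3⟩ := pair_sh (d := d) (j := j) (D := D) (U := U) (V' := V') (η := η)
      (τ := 2 * η) (χ := χ) (Ee := Ee) (ρ := ρ) (θ := ex (f - b + 2 * φ) J / 64)
      (H := 2 ^ ⌊b * J⌋₊) hW0J hη0 (by rw [hχ]; exact ex_pos _ _) (by rw [hρ]; positivity) (by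
        rw [hρ, div_le_one (by positivity)]
        exact one_le_pow₀ one_le_two) (by rw [hEe]; exact (ex_pos _ _).le) a1 a2 hs g1 g2 hsep
      (hnt _ a1) (hnt _ a2) hθ (by linarith) (by
        refine le_trans (le_of_eq ?_) hsz
        ring)
    obtain ⟨x, hx⟩ : ∃ x : ℝ, x = 2 ^ d.gU j * η := ⟨_, rfl⟩
    rw [← hx] at he1 he2
    have hx0 : 0 ≤ x := by
      rw [hx]
      positivity
    have e1 : 2 ^ d.gU j * (2 * η) = 2 * x := by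
      rw [hx]
      ring
    have e2 : 2 ^ d.gU j * (2 * η + 2 * η) + 2 * (ex (f - b + 2 * φ) J / 64) *
        (2 + 2 ^ d.gU j * (2 * (2 * η) + 3 * η)) = 4 * x + 2 * (ex (f - b + 2 * φ) J / 64) *
          (2 + 7 * x) := by
      rw [hx]
      ring
    rw [e1] at r1
    rw [e2] at r2
    have hex0 := ex_pos (f - b + 2 * φ) J
    refine hbad ⟨r1.trans (by linarith), r2.trans ?_, r3⟩
    have h5 : 2 * (ex (f - b + 2 * φ) J / 64) * (2 + 7 * x) ≤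
        2 * (ex (f - b + 2 * φ) J / 64) * 9 :=
      mul_le_mul_of_nonneg_left (by linarith) (by positivity)
    linarith
  have f4 := pe_le_add hq.nonneg (A := fun e : F.Ω × F.Ω => ¬ Gd d j D U V' η (2 * η) χ Ee e.2 ∨
    ¬ ρ ≤ |nt F ⌊N.w0 * J⌋₊ e.1 - nt F ⌊N.w0 * J⌋₊ e.2|) (fun e _ h => h)
  refine f3.trans ((add_le_add f1 (f4.trans (add_le_add f2 hct))).trans (le_of_eq ?_))
  rw [hc₁]
  ring

end Pool.HSC
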