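import Pool.Agent.H1.PLN.Stm

/-!
# Linear conics

`con_lin`: if the velocities at a point are not on a conic, they are not near a line: a lower bound
for linear functions of the velocities whose coefficients are functions of the point.
-/

set_option autoImplicit false

namespace Pool.HSC

open Finset Real
open Pool.Agent.H49.Ent Pool.Agent.H32.Dense Pool.STK Pool.KA Pool.KSAT Pool.K2S Pool.PB
  Pool.STAT Pool.GEN Pool.S6C Pool.M3F
open Pool.PLN (Nums Dat pA ConS ex ex_pos pe_mono qd Nq)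

variable {m : ℕ}

/-- **Linear conics.** -/
theorem con_lin {S : PCl m} {c : ℕ → Fin m} {N : Nums} {K : ℕ} {h c₁ : ℝ}
    (hcon : ConS S c N K h c₁) : ∃ φ : ℝ, 0 < φ ∧ Bas S (fun J F A => ∀ (d : Dat N φ K F c A)
      (r : PtT F → Fin 3 → ℝ), Pe (pA F A) (fun ω => ¬ ∀ i, |r (ptr F J ω) i| * ex h J ≤
        |r (ptr F J ω) 0 + r (ptr F J ω) 1 * F.d ω (c 0) + r (ptr F J ω) 2 * d.Ez ω|) ≤ c₁) := by
  classical
  obtain ⟨φ, hφ, hb⟩ := hcon
  refine ⟨φ, hφ, hb.mono 0 ?_⟩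
  intro J _ F A hF d r
  obtain ⟨μ, hμ⟩ : ∃ μ : PtT F → ℝ, μ = fun ξ => max |r ξ 0| (max |r ξ 1| |r ξ 2|) := ⟨_, rfl⟩
  have m0 : ∀ ξ, |r ξ 0| ≤ μ ξ := fun ξ => by
    rw [hμ]
    exact le_max_left _ _
  have m1 : ∀ ξ, |r ξ 1| ≤ μ ξ := fun ξ => by
    rw [hμ]
    exact (le_max_left _ _).trans (le_max_right _ _)
  have m2 : ∀ ξ, |r ξ 2| ≤ μ ξ := fun ξ => by
    rw [hμ]
    exact (le_max_right _ _).trans (le_max_right _ _)
  have mi : ∀ ξ i, |r ξ i| ≤ μ ξ := by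
    intro ξ i
    fin_cases i
    · exact m0 ξ
    · exact m1 ξ
    · exact m2 ξ
  have mn : ∀ ξ, 0 ≤ μ ξ := fun ξ => (abs_nonneg _).trans (m0 ξ)
  have ma : ∀ ξ, μ ξ = |r ξ 0| ∨ μ ξ = |r ξ 1| ∨ μ ξ = |r ξ 2| := by
    intro ξ
    rw [hμ]
    rcases max_choice |r ξ 0| (max |r ξ 1| |r ξ 2|) with h1 | h1
    · exact Or.inl h1
    · rcases max_choice |r ξ 1| |r ξ 2| with h2 | h2
      · exact Or.inr (Or.inl (h1.trans h2))
      · exact Or.inr (Or.inr (h1.trans h2))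
  obtain ⟨R, hR⟩ : ∃ R : PtT F → Fin 6 → ℝ, R = fun ξ => if μ ξ = 0 then ![1, 0, 0, 0, 0, 0] else
    ![r ξ 0 / μ ξ, r ξ 1 / μ ξ, r ξ 2 / μ ξ, 0, 0, 0] := ⟨_, rfl⟩
  have hN : ∀ ξ, Nq (R ξ) := by
    intro ξ
    by_cases h0 : μ ξ = 0
    · have e1 : R ξ = ![1, 0, 0, 0, 0, 0] := by
        rw [hR]
        exact if_pos h0
      rw [e1]
      refine ⟨fun i => ?_, 0, by simp⟩
      fin_cases i <;> simp
    · have e1 : R ξ = ![r ξ 0 / μ ξ, r ξ 1 / μ ξ, r ξ 2 / μ ξ, 0, 0, 0] := by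
        rw [hR]
        exact if_neg h0
      have hp : 0 < μ ξ := lt_of_le_of_ne (mn ξ) (Ne.symm h0)
      have hd : ∀ x : ℝ, |x| ≤ μ ξ → |x / μ ξ| ≤ 1 := by
        intro x hx
        rw [abs_div, abs_of_pos hp, div_le_one hp]
        exact hx
      have hd1 : ∀ x : ℝ, μ ξ = |x| → |x / μ ξ| = 1 := by
        intro x hx
        rw [abs_div, abs_of_pos hp, ← hx, div_self hp.ne']
      rw [e1]
      refine ⟨fun i => ?_, ?_⟩
      · fin_cases i
        · exact hd _ (m0 ξ)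
        · exact hd _ (m1 ξ)
        · exact hd _ (m2 ξ)
        · simp
        · simp
        · simp
      · rcases ma ξ with h1 | h1 | h1
        · exact ⟨0, hd1 _ h1⟩
        · exact ⟨1, hd1 _ h1⟩
        · exact ⟨2, hd1 _ h1⟩
  refine le_trans (pe_mono (cond_nonneg F.isLaw.nonneg A True) ?_) (hF d R hN)
  intro ω _ hω
  push Not at hω
  obtain ⟨i, hi⟩ := hω
  have hp : 0 < μ (ptr F J ω) := by
    refine lt_of_le_of_ne (mn _) fun h0 => ?_
    have h1 : |r (ptr F J ω) i| = 0 := le_antisymm ((mi _ i).trans h0.symm.le) (abs_nonneg _)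
    rw [h1, zero_mul] at hi
    exact absurd hi (not_lt.2 (abs_nonneg _))
  have e1 : R (ptr F J ω) = ![r (ptr F J ω) 0 / μ (ptr F J ω), r (ptr F J ω) 1 / μ (ptr F J ω),
      r (ptr F J ω) 2 / μ (ptr F J ω), 0, 0, 0] := by
    rw [hR]
    exact if_neg hp.ne'
  rw [e1]
  have e2 : ∀ x y a b c u : ℝ, qd ![a / u, b / u, c / u, 0, 0, 0] x y = (a + b * x + c * y) / u := by
    intro x y a b c u
    unfold qd
    simp only [Matrix.cons_val_zero, Matrix.cons_val_one, Matrix.cons_val]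
    ring
  rw [e2, abs_div, abs_of_pos hp, div_le_iff₀ hp]
  refine hi.le.trans ?_
  rw [mul_comm (ex h J)]
  exact mul_le_mul_of_nonneg_right (mi _ i) (ex_pos _ _).le

end Pool.HSC
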