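import Pool.Agent.H58.AFF.Hes

/-!
# Two samples of one line on affine sheets: the numbers

`cnv`: an affine function of the time and two coordinates in natural coordinates. `core`: two
samples of one line, with separated times, on two affine sheets `D`, `D'` over the time and two
coordinates; the function `U + t V` of the line is near both sheets; the velocities are not special.
Then the coefficients of the sheets are bounded. `siz_core`: the natural coefficients are bounded.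
-/

set_option autoImplicit false

namespace Pool.HSC

open Finset Real
open Pool.AFF (afv)

/-- The point of a line. -/
def lp (y₀ dy z₀ dz t : ℝ) : Fin 3 → ℝ := ![t, y₀ + t * dy, z₀ + t * dz]

theorem afv_lp (D : Fin 4 → ℝ) (y₀ dy z₀ dz t : ℝ) : afv D (lp y₀ dy z₀ dz t) =
    D 0 + D 2 * y₀ + D 3 * z₀ + t * (D 1 + D 2 * dy + D 3 * dz) := by
  unfold afv lp
  simp only [Matrix.cons_val_zero, Matrix.cons_val_one, Matrix.cons_val]
  ring

/-- The slope of a function of the line which is near a sheet. -/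
theorem slp_le {S η U V y₀ dy z₀ dz t : ℝ} {D : Fin 4 → ℝ} (hS : 0 < S)
    (h1 : |U + t * V - afv D (lp y₀ dy z₀ dz t)| ≤ η)
    (h2 : |U + (t + 2 / S) * V - afv D (lp y₀ dy z₀ dz (t + 2 / S))| ≤ η) :
    |V - (D 1 + D 2 * dy + D 3 * dz)| ≤ S * η := by
  rw [afv_lp] at h1 h2
  obtain ⟨x, hx⟩ : ∃ x, x = V - (D 1 + D 2 * dy + D 3 * dz) := ⟨_, rfl⟩
  rw [← hx]
  have e1 : 2 / S * x = (U + (t + 2 / S) * V - (D 0 + D 2 * y₀ + D 3 * z₀ +
      (t + 2 / S) * (D 1 + D 2 * dy + D 3 * dz))) - (U + t * V - (D 0 + D 2 * y₀ + D 3 * z₀ +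
      t * (D 1 + D 2 * dy + D 3 * dz))) := by
    rw [hx]
    ring
  have h3 : |2 / S * x| ≤ η + η := by
    rw [e1]
    exact (abs_sub _ _).trans (add_le_add h2 h1)
  rw [abs_mul, abs_of_pos (by positivity : 0 < 2 / S), div_mul_eq_mul_div, div_le_iff₀ hS] at h3
  linarith

/-- Rounding. -/
theorem rnd_le {δ y₀ dy z₀ dz t : ℝ} {D : Fin 4 → ℝ} {b : Fin 3 → ℝ} (h0 : b 0 = t)
    (h1 : |b 1 - (y₀ + t * dy)| ≤ δ) (h2 : |b 2 - (z₀ + t * dz)| ≤ δ) :
    |afv D b - afv D (lp y₀ dy z₀ dz t)| ≤ (|D 2| + |D 3|) * δ := by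
  have e1 : afv D b - afv D (lp y₀ dy z₀ dz t) =
      D 2 * (b 1 - (y₀ + t * dy)) + D 3 * (b 2 - (z₀ + t * dz)) := by
    rw [afv_lp]
    unfold afv
    rw [h0]
    ring
  rw [e1]
  refine (abs_add_le _ _).trans ?_
  rw [abs_mul, abs_mul, add_mul]
  exact add_le_add (mul_le_mul_of_nonneg_left h1 (abs_nonneg _))
    (mul_le_mul_of_nonneg_left h2 (abs_nonneg _))

/-- The coefficients of the sheet from the slope along the line. -/
theorem cof_le {S G Λ χ p₂ dy dz s : ℝ} {D : Fin 4 → ℝ} (hS : 0 < S) (hG : 0 < G)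
    (hΛ : |p₂| ≤ Λ) (hχ : 0 < χ) (hs : |D 1 + D 2 * dy + D 3 * dz| ≤ s)
    (c2 : |D 2 + D 3 * p₂| * χ ≤ |D 1 + D 2 * dy + D 3 * dz|)
    (c3 : |D 3| * (S / G) * χ ≤ |D 1 + D 2 * dy + D 3 * dz|) :
    |D 2| + |D 3| ≤ (S + (1 + Λ) * G) / (S * χ) * s := by
  have hs0 : 0 ≤ s := (abs_nonneg _).trans hs
  have hΛ0 : 0 ≤ Λ := (abs_nonneg _).trans hΛ
  have h2 : |D 2 + D 3 * p₂| ≤ s / χ := by
    rw [le_div_iff₀ hχ]
    exact c2.trans hs
  have h3 : |D 3| ≤ G / S * (s / χ) := by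
    have h4 : |D 3| * (S / G) ≤ s / χ := by
      rw [le_div_iff₀ hχ]
      exact c3.trans hs
    calc |D 3| = G / S * (|D 3| * (S / G)) := by field_simp
      _ ≤ _ := mul_le_mul_of_nonneg_left h4 (by positivity)
  have h4 : |D 2| ≤ s / χ + G / S * (s / χ) * Λ := by
    have e1 : D 2 = (D 2 + D 3 * p₂) - D 3 * p₂ := by ring
    rw [e1]
    refine (abs_sub _ _).trans (add_le_add h2 ?_)
    rw [abs_mul]
    exact mul_le_mul h3 hΛ (abs_nonneg _) (by positivity)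
  have e2 : (S + (1 + Λ) * G) / (S * χ) * s = s / χ + G / S * (s / χ) * Λ + G / S * (s / χ) := by
    field_simp
    ring
  rw [e2]
  exact add_le_add h4 h3

/-- **Two samples on two sheets.** -/
theorem core {S ρ η δ m τ χ G Λ θ t t' U V y₀ dy z₀ dz p₂ n n' : ℝ} {D D' : Fin 4 → ℝ}
    {b b' : Fin 3 → ℝ} (hS : 0 < S) (hρ : 0 < ρ) (hρ1 : ρ ≤ 1) (hη : 0 ≤ η) (hδ : 0 ≤ δ)
    (hχ : 0 < χ) (hG : 0 < G) (hΛ : |p₂| ≤ Λ) (hsep : ρ / S ≤ |t - t'|)
    (h1 : |U + t * V - afv D (lp y₀ dy z₀ dz t)| ≤ η)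
    (h2 : |U + (t + 2 / S) * V - afv D (lp y₀ dy z₀ dz (t + 2 / S))| ≤ η)
    (h1' : |U + t' * V - afv D' (lp y₀ dy z₀ dz t')| ≤ η)
    (h2' : |U + (t' + 2 / S) * V - afv D' (lp y₀ dy z₀ dz (t' + 2 / S))| ≤ η)
    (b0 : b 0 = t) (b1 : |b 1 - (y₀ + t * dy)| ≤ δ) (b2 : |b 2 - (z₀ + t * dz)| ≤ δ)
    (b0' : b' 0 = t') (b1' : |b' 1 - (y₀ + t' * dy)| ≤ δ) (b2' : |b' 2 - (z₀ + t' * dz)| ≤ δ)
    (hn : |n - afv D b| ≤ τ) (hm : |n| ≤ m) (hn' : |n' - afv D' b'| ≤ τ) (hm' : |n'| ≤ m)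
    (c2 : |D 2 + D 3 * p₂| * χ ≤ |D 1 + D 2 * dy + D 3 * dz|)
    (c3 : |D 3| * (S / G) * χ ≤ |D 1 + D 2 * dy + D 3 * dz|)
    (c2' : |D' 2 + D' 3 * p₂| * χ ≤ |D' 1 + D' 2 * dy + D' 3 * dz|)
    (c3' : |D' 3| * (S / G) * χ ≤ |D' 1 + D' 2 * dy + D' 3 * dz|)
    (hθ : 2 * (S + (1 + Λ) * G) * δ / (χ * ρ) ≤ θ) (hθ1 : θ ≤ 1 / 2) :
    |D 1 + D 2 * dy + D 3 * dz| ≤ S / ρ * (4 * m + 4 * τ + 6 * η) ∧
    |D' 1 + D' 2 * dy + D' 3 * dz| ≤ S / ρ * (4 * m + 4 * τ + 6 * η) ∧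
    (|D 2| + |D 3| + (|D' 2| + |D' 3|)) * δ ≤ 2 * θ * (2 * m + 2 * τ + 3 * η) := by
  have hΛ0 : 0 ≤ Λ := (abs_nonneg _).trans hΛ
  have hm0 : 0 ≤ m := (abs_nonneg _).trans hm
  have hτ0 : 0 ≤ τ := (abs_nonneg _).trans hn
  obtain ⟨q, hq⟩ : ∃ q, q = |D 2| + |D 3| := ⟨_, rfl⟩
  obtain ⟨q', hq'⟩ : ∃ q', q' = |D' 2| + |D' 3| := ⟨_, rfl⟩
  have q0 : 0 ≤ q := by
    rw [hq]
    positivity
  have q0' : 0 ≤ q' := by
    rw [hq']
    positivity
  -- the values of the function of the line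
  have v1 : |U + t * V| ≤ m + τ + η + q * δ := by
    have e1 : U + t * V = (U + t * V - afv D (lp y₀ dy z₀ dz t)) -
        (afv D b - afv D (lp y₀ dy z₀ dz t)) - (n - afv D b) + n := by ring
    have h3 := rnd_le (D := D) b0 b1 b2
    rw [← hq] at h3
    rw [e1]
    refine (abs_add_le _ _).trans ((add_le_add ((abs_sub _ _).trans (add_le_add
      ((abs_sub _ _).trans (add_le_add h1 h3)) hn)) hm).trans ?_)
    linarith
  have v1' : |U + t' * V| ≤ m + τ + η + q' * δ := by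
    have e1 : U + t' * V = (U + t' * V - afv D' (lp y₀ dy z₀ dz t')) -
        (afv D' b' - afv D' (lp y₀ dy z₀ dz t')) - (n' - afv D' b') + n' := by ring
    have h3 := rnd_le (D := D') b0' b1' b2'
    rw [← hq'] at h3
    rw [e1]
    refine (abs_add_le _ _).trans ((add_le_add ((abs_sub _ _).trans (add_le_add
      ((abs_sub _ _).trans (add_le_add h1' h3)) hn')) hm').trans ?_)
    linarith
  obtain ⟨Q, hQ⟩ : ∃ Q, Q = (q + q') * δ := ⟨_, rfl⟩
  have hQ0 : 0 ≤ Q := by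
    rw [hQ]
    positivity
  have hV : |V| ≤ S / ρ * (2 * m + 2 * τ + 2 * η + Q) := by
    have h3 : |V| * (ρ / S) ≤ 2 * m + 2 * τ + 2 * η + Q := by
      calc |V| * (ρ / S) ≤ |V| * |t - t'| := mul_le_mul_of_nonneg_left hsep (abs_nonneg _)
        _ = |(U + t * V) - (U + t' * V)| := by
            rw [← abs_mul]
            congr 1
            ring
        _ ≤ (m + τ + η + q * δ) + (m + τ + η + q' * δ) :=
            (abs_sub _ _).trans (add_le_add v1 v1')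
        _ = _ := by
            rw [hQ]
            ring
    calc |V| = S / ρ * (|V| * (ρ / S)) := by field_simp
      _ ≤ _ := mul_le_mul_of_nonneg_left h3 (by positivity)
  have s1 : |D 1 + D 2 * dy + D 3 * dz| ≤ |V| + S * η := by
    have h3 := slp_le hS h1 h2
    have e1 : D 1 + D 2 * dy + D 3 * dz = V - (V - (D 1 + D 2 * dy + D 3 * dz)) := by ring
    rw [e1]
    exact (abs_sub _ _).trans (add_le_add le_rfl h3)
  have s1' : |D' 1 + D' 2 * dy + D' 3 * dz| ≤ |V| + S * η := by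
    have h3 := slp_le hS h1' h2'
    have e1 : D' 1 + D' 2 * dy + D' 3 * dz = V - (V - (D' 1 + D' 2 * dy + D' 3 * dz)) := by ring
    rw [e1]
    exact (abs_sub _ _).trans (add_le_add le_rfl h3)
  have g1 := cof_le hS hG hΛ hχ s1 c2 c3
  have g1' := cof_le hS hG hΛ hχ s1' c2' c3'
  rw [← hq] at g1
  rw [← hq'] at g1'
  have hθ0 : 0 ≤ θ := le_trans (by positivity) hθ
  have a1 : Q ≤ θ * (2 * m + 2 * τ + 3 * η + Q) := by
    calc Q = (q + q') * δ := hQ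
      _ ≤ (2 * ((S + (1 + Λ) * G) / (S * χ) * (|V| + S * η))) * δ :=
          mul_le_mul_of_nonneg_right (by linarith) hδ
      _ = (2 * (S + (1 + Λ) * G) * δ / (χ * ρ)) * (ρ / S * (|V| + S * η)) := by
          field_simp
      _ ≤ θ * (ρ / S * (|V| + S * η)) := mul_le_mul_of_nonneg_right hθ (by positivity)
      _ ≤ θ * (2 * m + 2 * τ + 3 * η + Q) := by
          refine mul_le_mul_of_nonneg_left ?_ hθ0
          calc ρ / S * (|V| + S * η) ≤ ρ / S * (S / ρ * (2 * m + 2 * τ + 2 * η + Q) + S * η) :=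
                mul_le_mul_of_nonneg_left (by linarith) (by positivity)
            _ = 2 * m + 2 * τ + 2 * η + Q + ρ * η := by
                field_simp
            _ ≤ 2 * m + 2 * τ + 2 * η + Q + 1 * η := by
                have := mul_le_mul_of_nonneg_right hρ1 hη
                linarith
            _ = _ := by ring
  have a2 : θ * Q ≤ 1 / 2 * Q := mul_le_mul_of_nonneg_right hθ1 hQ0
  have a3 : Q ≤ 2 * θ * (2 * m + 2 * τ + 3 * η) := by nlinarith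
  have a4 : Q ≤ 2 * m + 2 * τ + 3 * η := by
    have h3 : θ * (2 * m + 2 * τ + 3 * η) ≤ 1 / 2 * (2 * m + 2 * τ + 3 * η) :=
      mul_le_mul_of_nonneg_right hθ1 (by positivity)
    linarith
  have a5 : |V| + S * η ≤ S / ρ * (4 * m + 4 * τ + 6 * η) := by
    have h3 : S * η ≤ S / ρ * η := by
      refine mul_le_mul_of_nonneg_right ?_ hη
      rw [le_div_iff₀ hρ]
      nlinarith
    have h4 : S / ρ * (2 * m + 2 * τ + 2 * η + Q) ≤ S / ρ * (4 * m + 4 * τ + 5 * η) :=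
      mul_le_mul_of_nonneg_left (by linarith) (by positivity)
    have h5 : S / ρ * (4 * m + 4 * τ + 5 * η) + S / ρ * η = S / ρ * (4 * m + 4 * τ + 6 * η) := by
      ring
    linarith
  refine ⟨s1.trans a5, s1'.trans a5, ?_⟩
  rw [← hq, ← hq', ← hQ]
  exact a3

/-- The deviation of a sample from the sheet of another sample. -/
theorem dev_le {η δ τ t U V y₀ dy z₀ dz n : ℝ} {D D' : Fin 4 → ℝ} {b : Fin 3 → ℝ}
    (h1 : |U + t * V - afv D (lp y₀ dy z₀ dz t)| ≤ η)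
    (h1' : |U + t * V - afv D' (lp y₀ dy z₀ dz t)| ≤ η)
    (b0 : b 0 = t) (b1 : |b 1 - (y₀ + t * dy)| ≤ δ) (b2 : |b 2 - (z₀ + t * dz)| ≤ δ)
    (hn : |n - afv D b| ≤ τ) :
    |n - afv D' b| ≤ τ + 2 * η + (|D 2| + |D 3| + (|D' 2| + |D' 3|)) * δ := by
  have e1 : n - afv D' b = (n - afv D b) + (afv D b - afv D (lp y₀ dy z₀ dz t)) -
      (U + t * V - afv D (lp y₀ dy z₀ dz t)) + (U + t * V - afv D' (lp y₀ dy z₀ dz t)) -
      (afv D' b - afv D' (lp y₀ dy z₀ dz t)) := by ring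
  rw [e1]
  have h3 := rnd_le (D := D) b0 b1 b2
  have h4 := rnd_le (D := D') b0 b1 b2
  refine (abs_sub _ _).trans ((add_le_add ((abs_add_le _ _).trans (add_le_add ((abs_sub _ _).trans
    (add_le_add ((abs_add_le _ _).trans (add_le_add hn h3)) h1)) h1')) h4).trans ?_)
  linarith

/-! ### Natural coordinates -/

/-- An affine function of the time and two coordinates in natural coordinates. -/
noncomputable def cnv (S G₀ G₁ Gj T : ℝ) (A : Fin 2 → ℝ) (B : Fin 3 → ℝ) (D : Fin 4 → ℝ) :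
    Fin 4 → ℝ :=
  ![Gj * (D 0 + D 1 * (T / S) + (D 2 + D 3 * B 2) * (A 0 + A 1 * (T / S)) +
      D 3 * (B 0 + B 1 * (T / S))),
    Gj / S * (D 1 + (D 2 + D 3 * B 2) * A 1 + D 3 * B 1),
    Gj / G₀ * (D 2 + D 3 * B 2),
    Gj / G₁ * D 3]

theorem lev_cnv {S G₀ G₁ Gj T : ℝ} (hS : 0 < S) (h0 : 0 < G₀) (h1 : 0 < G₁) (A : Fin 2 → ℝ)
    (B : Fin 3 → ℝ) (D : Fin 4 → ℝ) (b : Fin 3 → ℝ) :
    cnv S G₀ G₁ Gj T A B D 0 + cnv S G₀ G₁ Gj T A B D 1 * (S * b 0 - T) +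
      cnv S G₀ G₁ Gj T A B D 2 * (G₀ * (b 1 - (A 0 + A 1 * b 0))) +
      cnv S G₀ G₁ Gj T A B D 3 * (G₁ * (b 2 - (B 0 + B 1 * b 0 + B 2 * b 1))) =
      Gj * afv D b := by
  unfold cnv afv
  simp only [Matrix.cons_val_zero, Matrix.cons_val_one, Matrix.cons_val]
  field_simp
  ring

/-- **The natural coefficients.** -/
theorem siz_core {S G₀ G₁ Gj T G χ X Y a p₁ p₂ s ζ : ℝ} {A : Fin 2 → ℝ} {B : Fin 3 → ℝ}
    {D : Fin 4 → ℝ} (hS : 0 < S) (h0 : 0 < G₀) (h1 : 0 < G₁) (hj : 0 < Gj) (hG : 0 < G)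
    (hχ : 0 < χ) (hs : s ≤ X * χ) (c1 : |D 1 + D 3 * p₁| * χ ≤ s)
    (c2 : |D 2 + D 3 * p₂| * χ ≤ s) (c3 : |D 3| * (S / G) * χ ≤ s) (hA : |A 1| ≤ a)
    (hB1 : |B 1 - p₁| ≤ Y) (hB2 : |B 2 - p₂| ≤ Y) {b : Fin 3 → ℝ}
    (n0 : |S * b 0 - T| ≤ 1) (n1 : |G₀ * (b 1 - (A 0 + A 1 * b 0))| ≤ 1)
    (n2 : |G₁ * (b 2 - (B 0 + B 1 * b 0 + B 2 * b 1))| ≤ 1) (hv : |Gj * afv D b| ≤ ζ) (i : Fin 4) :
    |cnv S G₀ G₁ Gj T A B D i| ≤
      ζ + (1 + S / G₀ + G / G₁) * (Gj * X / S) * (1 + G * Y / S) * (1 + a) := by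
  have ha0 : 0 ≤ a := (abs_nonneg _).trans hA
  have hY0 : 0 ≤ Y := (abs_nonneg _).trans hB1
  have d1 : |D 1 + D 3 * p₁| ≤ X := by
    have h := c1.trans hs
    exact le_of_mul_le_mul_right h hχ
  have d2 : |D 2 + D 3 * p₂| ≤ X := by
    have h := c2.trans hs
    exact le_of_mul_le_mul_right h hχ
  have d3 : |D 3| ≤ G / S * X := by
    have h := le_of_mul_le_mul_right (c3.trans hs) hχ
    calc |D 3| = G / S * (|D 3| * (S / G)) := by field_simp
      _ ≤ _ := mul_le_mul_of_nonneg_left h (by positivity)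
  have hX0 : 0 ≤ X := (abs_nonneg _).trans d1
  have k3 : |D 3| * Y ≤ G / S * X * Y := mul_le_mul_of_nonneg_right d3 hY0
  have f2 : |D 2 + D 3 * B 2| ≤ X * (1 + G * Y / S) := by
    have e1 : D 2 + D 3 * B 2 = (D 2 + D 3 * p₂) + D 3 * (B 2 - p₂) := by ring
    rw [e1]
    refine (abs_add_le _ _).trans ((add_le_add d2 (show |D 3 * (B 2 - p₂)| ≤ G / S * X * Y from
      ?_)).trans (le_of_eq (by field_simp)))
    rw [abs_mul]
    exact (mul_le_mul_of_nonneg_left hB2 (abs_nonneg _)).trans k3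
  have f1 : |D 1 + (D 2 + D 3 * B 2) * A 1 + D 3 * B 1| ≤ X * (1 + G * Y / S) * (1 + a) := by
    have e1 : D 1 + (D 2 + D 3 * B 2) * A 1 + D 3 * B 1 = ((D 1 + D 3 * p₁) + D 3 * (B 1 - p₁)) +
      (D 2 + D 3 * B 2) * A 1 := by ring
    rw [e1]
    have h3 : |(D 1 + D 3 * p₁) + D 3 * (B 1 - p₁)| ≤ X * (1 + G * Y / S) := by
      refine (abs_add_le _ _).trans ((add_le_add d1 (show |D 3 * (B 1 - p₁)| ≤ G / S * X * Y from
        ?_)).trans (le_of_eq (by field_simp)))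
      rw [abs_mul]
      exact (mul_le_mul_of_nonneg_left hB1 (abs_nonneg _)).trans k3
    refine (abs_add_le _ _).trans ((add_le_add h3 (show |(D 2 + D 3 * B 2) * A 1| ≤
      X * (1 + G * Y / S) * a from ?_)).trans (le_of_eq (by ring)))
    rw [abs_mul]
    exact mul_le_mul f2 hA (abs_nonneg _) (by positivity)
  obtain ⟨Z, hZ⟩ : ∃ Z, Z = (Gj * X / S) * (1 + G * Y / S) * (1 + a) := ⟨_, rfl⟩
  have hZ0 : 0 ≤ Z := by
    rw [hZ]
    positivity
  have l1 : |cnv S G₀ G₁ Gj T A B D 1| ≤ Z := by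
    show |Gj / S * (D 1 + (D 2 + D 3 * B 2) * A 1 + D 3 * B 1)| ≤ Z
    rw [abs_mul, abs_of_pos (by positivity : 0 < Gj / S), hZ]
    refine (mul_le_mul_of_nonneg_left f1 (by positivity)).trans (le_of_eq ?_)
    ring
  have l2 : |cnv S G₀ G₁ Gj T A B D 2| ≤ S / G₀ * Z := by
    show |Gj / G₀ * (D 2 + D 3 * B 2)| ≤ S / G₀ * Z
    rw [abs_mul, abs_of_pos (by positivity : 0 < Gj / G₀), hZ]
    calc Gj / G₀ * |D 2 + D 3 * B 2| ≤ Gj / G₀ * (X * (1 + G * Y / S)) :=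
          mul_le_mul_of_nonneg_left f2 (by positivity)
      _ = S / G₀ * (Gj * X / S * (1 + G * Y / S) * 1) := by
          field_simp
      _ ≤ _ := mul_le_mul_of_nonneg_left (mul_le_mul_of_nonneg_left (by linarith)
          (by positivity)) (by positivity)
  have l3 : |cnv S G₀ G₁ Gj T A B D 3| ≤ G / G₁ * Z := by
    show |Gj / G₁ * D 3| ≤ G / G₁ * Z
    rw [abs_mul, abs_of_pos (by positivity : 0 < Gj / G₁), hZ]
    calc Gj / G₁ * |D 3| ≤ Gj / G₁ * (G / S * X) := mul_le_mul_of_nonneg_left d3 (by positivity)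
      _ = G / G₁ * (Gj * X / S * 1 * 1) := by
          field_simp
      _ ≤ _ := by
          refine mul_le_mul_of_nonneg_left (mul_le_mul (mul_le_mul_of_nonneg_left ?_
            (by positivity)) (by linarith) zero_le_one (by positivity)) (by positivity)
          have : 0 ≤ G * Y / S := by positivity
          linarith
  have hSZ : 0 ≤ S / G₀ * Z := by positivity
  have hGZ : 0 ≤ G / G₁ * Z := by positivity
  have hζ : 0 ≤ ζ := (abs_nonneg _).trans hv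
  have l0 : |cnv S G₀ G₁ Gj T A B D 0| ≤ ζ + (Z + S / G₀ * Z + G / G₁ * Z) := by
    have e1 := lev_cnv (Gj := Gj) (T := T) hS h0 h1 A B D b
    have e2 : cnv S G₀ G₁ Gj T A B D 0 = Gj * afv D b -
        (cnv S G₀ G₁ Gj T A B D 1 * (S * b 0 - T) +
        cnv S G₀ G₁ Gj T A B D 2 * (G₀ * (b 1 - (A 0 + A 1 * b 0))) +
        cnv S G₀ G₁ Gj T A B D 3 * (G₁ * (b 2 - (B 0 + B 1 * b 0 + B 2 * b 1)))) := by
      rw [← e1]
      ring
    have hx : ∀ x y Z : ℝ, |x| ≤ Z → |y| ≤ 1 → |x * y| ≤ Z := by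
      intro x y Z hx hy
      rw [abs_mul]
      calc |x| * |y| ≤ |x| * 1 := mul_le_mul_of_nonneg_left hy (abs_nonneg _)
        _ = |x| := mul_one _
        _ ≤ Z := hx
    rw [e2]
    refine (abs_sub _ _).trans (add_le_add hv ?_)
    exact (abs_add_le _ _).trans (add_le_add ((abs_add_le _ _).trans (add_le_add
      (hx _ _ _ l1 n0) (hx _ _ _ l2 n1))) (hx _ _ _ l3 n2))
  have e3 : ζ + (1 + S / G₀ + G / G₁) * (Gj * X / S) * (1 + G * Y / S) * (1 + a) =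
      ζ + (Z + S / G₀ * Z + G / G₁ * Z) := by
    rw [hZ]
    ring
  rw [e3]
  fin_cases i
  · exact l0
  · exact l1.trans (by linarith)
  · exact l2.trans (by linarith)
  · exact l3.trans (by linarith)

end Pool.HSC
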