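import Pool.Agent.H24.HES.Shn

/-!
# The velocity of `c 1` over its plane, from two times; the loss of the Hessians

`ezs_tw`: two samples of one line, with separated times, are near one plane: the velocity is near the
slope of the plane. `hes_mono`: `HesS` with a larger loss.
-/

set_option autoImplicit false

namespace Pool.HSC

open Finset Real MvPolynomial
open Pool.Agent.H49.Ent Pool.Agent.H32.Dense Pool.STK Pool.KA Pool.KSAT Pool.K2S Pool.PB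
  Pool.STAT Pool.GEN Pool.M3F Pool.KM7 Pool.S6C Pool.JPN
open Pool.PLN (Nums Dat lpt pA HesS EzS ex ex_pos ex_le pe_mono pe_marg const_le_ex mul_ex_le
  floor_le_ex ex_add)
open Pool.PLN.Dat (pA_pos)
open Pool.PM (tsp_ev nt q2)
open Pool.GRW (TmWn)

variable {m : ℕ}

/-- The velocity of `c 1` at a sample which has a partner. -/
theorem ez_two {J : ℕ} {N : Nums} {φ : ℝ} {K : ℕ} {F : Fam m J} {c : ℕ → Fin m} {A : F.Ω → Prop}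
    (d : Dat N φ K F c A) {ω ω' : F.Ω} (hω : A ω) (hω' : A ω')
    (hs : slam F ⌊N.w0 * J⌋₊ ω = slam F ⌊N.w0 * J⌋₊ ω') {ρ : ℝ} (hρ : 0 < ρ)
    (hsep : ρ ≤ |nt F ⌊N.w0 * J⌋₊ ω - nt F ⌊N.w0 * J⌋₊ ω'|) : |d.Ez ω| ≤ 2 / ρ := by
  have pS : (0 : ℝ) < 2 ^ ⌊N.w0 * J⌋₊ := by positivity
  have pG : (0 : ℝ) < 2 ^ d.G0 := by positivity
  have hl : F.l ω = F.l ω' := congrArg (fun y => y.1) hs
  have hul : F.u ω = F.u ω' := congrArg Prod.fst hl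
  have hdl : F.d ω = F.d ω' := congrArg Prod.snd hl
  have hT : F.T1 ⌊N.w0 * J⌋₊ ω = F.T1 ⌊N.w0 * J⌋₊ ω' := congrArg (fun y => y.2.2) hs
  have hz : d.zz (ptr F J ω) = d.zz (ptr F J ω') := by
    rw [d.lab0.cls ω hω, d.lab0.cls ω' hω', hs]
  have hsep2 : ρ / 2 ^ ⌊N.w0 * J⌋₊ ≤ |F.t ω - F.t ω'| := by
    have e1 : nt F ⌊N.w0 * J⌋₊ ω - nt F ⌊N.w0 * J⌋₊ ω' =
        2 ^ ⌊N.w0 * J⌋₊ * (F.t ω - F.t ω') := by
      unfold Pool.PM.nt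
      rw [hT]
      ring
    rw [e1, abs_mul, abs_of_pos pS] at hsep
    rw [div_le_iff₀ pS]
    linarith
  have h1 := d.pos0 ω hω
  have h2 := d.pos0 ω' hω'
  rw [← hz] at h2
  have h3 := two_val (U := F.u ω (c 1) - d.pl ω 0 - d.pl ω 2 * F.u ω (c 0))
    (V := F.d ω (c 1) - d.pl ω 1 - d.pl ω 2 * F.d ω (c 0)) (t := F.t ω) (t' := F.t ω')
    (x := 1 / 2 ^ d.G0) pS hρ hsep2 (by
      refine le_trans (le_of_eq ?_) h1
      congr 1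
      unfold Pool.PLN.af Fam.x Pool.PLN.Dat.pl
      ring) (by
      refine le_trans (le_of_eq ?_) h2
      congr 1
      unfold Pool.PLN.af Fam.x Pool.PLN.Dat.pl
      rw [← hul, ← hdl]
      ring)
  unfold Pool.PLN.Dat.Ez
  rw [abs_mul, abs_of_pos (by positivity : (0 : ℝ) < 2 ^ d.G0 / 2 ^ ⌊N.w0 * J⌋₊)]
  calc 2 ^ d.G0 / 2 ^ ⌊N.w0 * J⌋₊ * |F.d ω (c 1) - d.pl ω 1 - d.pl ω 2 * F.d ω (c 0)| ≤
        2 ^ d.G0 / 2 ^ ⌊N.w0 * J⌋₊ * (2 ^ ⌊N.w0 * J⌋₊ / ρ * (2 * (1 / 2 ^ d.G0))) :=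
        mul_le_mul_of_nonneg_left h3 (by positivity)
    _ = 2 / ρ := by field_simp

/-- **The velocity of `c 1` over its plane**, in a class. -/
theorem ezs_tw {S : PCl m}
    (hpos : ∀ (τ : ℝ) (J : ℕ) (F : Fam m J) (A : F.Ω → Prop), S.St τ J F A → 0 < Pe F.p A)
    {c : ℕ → Fin m} {N : Nums} {K : ℕ} (htw : TmWn S N.w0) (h0 : 0 ≤ N.w0) (h1 : N.w0 < 1)
    {b c₀ : ℝ} (hb : 0 < b) (hc : 0 < c₀) : EzS S c N K b c₀ := by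
  classical
  have bt := tsp_ev htw h0 h1 (show 0 < b / 2 by linarith) hc
  obtain ⟨J₁, hJ₁⟩ := const_le_ex 2 (show 0 < b / 2 by linarith)
  refine ⟨1, one_pos, (bt.and (⟨1, one_pos, 0, fun J _ F A hA => hpos 1 J F A hA⟩ :
    Bas S (fun _ F A => 0 < Pe F.p A))).mono J₁ ?_⟩
  rintro J hJ F A ⟨qt, hPA⟩ d
  have hlaw := isLaw_cond F.isLaw hPA
  have h2 := qt ⌊b / 2 * J⌋₊ le_rfl
  have h3 : Pe (pA F A) (fun ω => ¬ |d.Ez ω| ≤ ex (-b) J) =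
      Pe (q2 F A ⌊N.w0 * J⌋₊) (fun e => ¬ |d.Ez e.1| ≤ ex (-b) J) :=
    (pe_marg (fun ω => P2_fst hlaw (slam F ⌊N.w0 * J⌋₊) ω)
      (fun ω => ¬ |d.Ez ω| ≤ ex (-b) J)).symm
  rw [h3]
  refine le_trans (pe_mono (P2_isLaw hlaw (slam F ⌊N.w0 * J⌋₊)).nonneg ?_) h2
  intro e he hbad hsep
  obtain ⟨p1, p2, hs⟩ := (P2_pos hlaw e).1 he
  refine hbad ((ez_two d (pA_pos p1).1 (pA_pos p2).1 hs (by positivity) hsep).trans ?_)
  have e1 : (2 : ℝ) / (1 / 2 ^ ⌊b / 2 * J⌋₊) = 2 * 2 ^ ⌊b / 2 * J⌋₊ := by field_simp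
  rw [e1]
  have h4 := floor_le_ex (show 0 ≤ b / 2 by linarith) J
  have h5 : 2 * ex (-(b / 2)) J ≤ ex (-b) J := by
    refine mul_ex_le ((hJ₁ J hJ).trans (ex_le ?_ J))
    linarith
  linarith

/-- **`HesS` with a larger loss.** -/
theorem hes_mono {S : PCl m} {c : ℕ → Fin m} {N N₁ : Nums} {K K₁ K' : ℕ} {e e' c₀ : ℝ}
    (hpos : ∀ (τ : ℝ) (J : ℕ) (F : Fam m J) (A : F.Ω → Prop), S.St τ J F A → 0 < Pe F.p A)
    (h : HesS S c N N₁ K K₁ K' e c₀) (he : e ≤ e') : HesS S c N N₁ K K₁ K' e' c₀ := by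
  obtain ⟨φ, hφ, hB⟩ := h
  refine ⟨φ, hφ, (hB.and (⟨1, one_pos, 0, fun J _ F A hA => hpos 1 J F A hA⟩ :
    Bas S (fun _ F A => 0 < Pe F.p A))).mono 0 ?_⟩
  rintro J _ F A ⟨hF, hPA⟩ d₀ d hE G ε U V' hdeg hex
  have hlaw := isLaw_cond F.isLaw hPA
  obtain ⟨q, hq⟩ := hF d₀ d hE G ε U V' hdeg hex
  refine ⟨q, le_trans (pe_mono hlaw.nonneg ?_) hq⟩
  rintro ω hω hbad ⟨hBb, hBl⟩
  have hωA := pA_pos hω
  have hε : 0 ≤ ε (d.κ ω) := (abs_nonneg _).trans (hex ω hωA.1 hωA.2)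
  have h1 : ex (-e) J * ε (d.κ ω) ≤ ex (-e') J * ε (d.κ ω) :=
    mul_le_mul_of_nonneg_right (ex_le (by linarith) J) hε
  exact hbad ⟨fun b hb => (hBb b hb).trans h1, fun t ht => (hBl t ht).trans h1⟩

end Pool.HSC
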