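import Pool.Agent.H24.HES.Cls

/-!
# The function of a line relative to a chart; samples and leaves

`Ul`, `Vl`: the coordinate `j` of the line relative to the affine chart. `ev_toF`: polynomials in
finitely many variables. `pn_mvn`: mean values.
-/

set_option autoImplicit false

namespace Pool.HSC

open Finset Real MvPolynomial
open Pool.Agent.H49.Ent Pool.Agent.H32.Dense Pool.STK Pool.KA Pool.KSAT Pool.K2S Pool.PB
  Pool.STAT Pool.GEN Pool.M3F Pool.KM7 Pool.S6C Pool.JPN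
open Pool.PLN (Nums Dat lpt mv_sg)
open Pool.PLN.Dat (px_x)
open Pool.PM (VNum VDat MNum MDat)
open Pool.PM93 (IsAf)

variable {m J : ℕ}

/-- The exact point. -/
noncomputable def xt (F : Fam m J) (c : ℕ → Fin m) (ω : F.Ω) (i : ℕ) : ℝ :=
  if i = 0 then F.t ω else F.x ω (c (i - 1))

theorem xt_zero (F : Fam m J) (c : ℕ → Fin m) (ω : F.Ω) : xt F c ω 0 = F.t ω := if_pos rfl

theorem xt_succ (F : Fam m J) (c : ℕ → Fin m) (ω : F.Ω) (i : ℕ) :
    xt F c ω (i + 1) = F.x ω (c i) := if_neg (Nat.succ_ne_zero i)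

theorem xt_px (F : Fam m J) (c : ℕ → Fin m) (ω : F.Ω) (i : ℕ) :
    |xt F c ω i - px c (ptr F J ω) i| ≤ 1 / 2 ^ J := by
  rcases Nat.eq_zero_or_pos i with h | h
  · rw [h, xt_zero]
    have e1 : px c (ptr F J ω) 0 = F.t ω := if_pos rfl
    rw [e1, sub_self, abs_zero]
    positivity
  · obtain ⟨k, rfl⟩ : ∃ k, i = k + 1 := ⟨i - 1, by omega⟩
    rw [xt_succ, abs_sub_comm]
    exact px_x (F := F) c ω k

theorem lpt_xt (F : Fam m J) (c : ℕ → Fin m) (ω : F.Ω) :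
    lpt F c ω (F.t ω) = fun i : Fin 3 => xt F c ω i := by
  funext i
  fin_cases i <;> rfl

/-- The coordinate `j` relative to the chart, at time zero. -/
noncomputable def Ul {F : Fam m J} (c : ℕ → Fin m) {V : Type} (Q : V → ℕ → PN) (u' : LnT F → V)
    (j : ℕ) (s : LnT F) : ℝ :=
  s.1.1 (c j) - (cf (Q (u' s) (j + 1)) 0 +
    ∑ l ∈ range j, cf (Q (u' s) (j + 1)) (l + 2) * s.1.1 (c l))

/-- The velocity of the coordinate `j` relative to the chart. -/
noncomputable def Vl {F : Fam m J} (c : ℕ → Fin m) {V : Type} (Q : V → ℕ → PN) (u' : LnT F → V)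
    (j : ℕ) (s : LnT F) : ℝ :=
  s.1.2 (c j) - (cf (Q (u' s) (j + 1)) 1 +
    ∑ l ∈ range j, cf (Q (u' s) (j + 1)) (l + 2) * s.1.2 (c l))

theorem ul_vl {N : VNum} {φ : ℝ} {K : ℕ} {F : Fam m J} {c : ℕ → Fin m} {A : F.Ω → Prop}
    (d : VDat N φ K F c A) (j : ℕ) {ω : F.Ω} (hω : A ω) :
    Ul c d.Q d.u' j (slam F ⌊N.w0 * J⌋₊ ω) + F.t ω * Vl c d.Q d.u' j (slam F ⌊N.w0 * J⌋₊ ω) =
      F.x ω (c j) - eval (xt F c ω) (d.Q (d.u (ptr F J ω)) (j + 1)) := by
  have hA : IsAf j (d.Q (d.u (ptr F J ω)) (j + 1)) := ⟨d.aff _ _, d.tri _ _⟩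
  rw [eval_cf hA, Finset.sum_range_succ', xt_zero]
  unfold Ul Vl
  rw [← d.clsU ω hω]
  obtain ⟨q, hq⟩ : ∃ q, q = d.Q (d.u (ptr F J ω)) (j + 1) := ⟨_, rfl⟩
  rw [← hq]
  have e1 : ∑ l ∈ range j, cf q (l + 1 + 1) * xt F c ω (l + 1) =
      ∑ l ∈ range j, cf q (l + 2) * F.u ω (c l) +
        F.t ω * ∑ l ∈ range j, cf q (l + 2) * F.d ω (c l) := by
    rw [Finset.mul_sum, ← Finset.sum_add_distrib]
    refine Finset.sum_congr rfl fun l _ => ?_
    rw [xt_succ]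
    unfold Fam.x
    ring
  rw [e1]
  have e2 : (slam F ⌊N.w0 * J⌋₊ ω).1.1 = F.u ω := rfl
  have e3 : (slam F ⌊N.w0 * J⌋₊ ω).1.2 = F.d ω := rfl
  have e4 : F.x ω (c j) = F.u ω (c j) + F.t ω * F.d ω (c j) := rfl
  rw [e2, e3, e4]
  ring

/-- Polynomials in finitely many variables. -/
theorem ev_toF {n : ℕ} {P : PN} (hP : P.vars ⊆ range n) (b : ℕ → ℝ) :
    eval (fun i : Fin n => b i) (toF n 0 P) = eval b P := by
  rw [eval_toF, pow_zero, one_mul]
  refine Pool.SYS35.eval_congr hP fun i hi => ?_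
  unfold unF
  rw [dif_pos hi, pow_zero, div_one]

/-- Mean values. -/
theorem pn_mvn {n : ℕ} {P : PN} (hP : P.vars ⊆ range n) {b b' : ℕ → ℝ} {δ L : ℝ}
    (hδ : ∀ l < n, |b l - b' l| ≤ δ) (hL : 0 ≤ L)
    (hg : ∀ t ∈ Set.Icc (0 : ℝ) 1, ∀ l < n,
      |eval (fun i => b' i + t * (b i - b' i)) (pderiv l P)| ≤ L) :
    |eval b P - eval b' P| ≤ n * L * δ := by
  have h1 := mv_sg (toF n 0 P) (fun _ => L) (u := fun i : Fin n => b' i.val)
    (u' := fun i : Fin n => b i.val) (fun t ht i => by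
      rw [eval_pderiv_toF]
      refine le_trans (le_of_eq ?_) (hg t ht i.val i.2)
      congr 1
      refine Pool.SYS35.eval_congr ((Pool.PLA.vars_pd _ _).trans hP) fun l hl => ?_
      unfold unF
      rw [dif_pos hl, pow_zero, div_one])
  rw [ev_toF hP, ev_toF hP] at h1
  refine h1.trans ?_
  calc ∑ i : Fin n, L * |b i.val - b' i.val| ≤ ∑ _i : Fin n, L * δ :=
        Finset.sum_le_sum fun i _ => mul_le_mul_of_nonneg_left (hδ i.val i.2) hL
    _ = n * L * δ := by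
        rw [Finset.sum_const, Finset.card_univ, Fintype.card_fin, nsmul_eq_mul]
        ring

end Pool.HSC
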