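import Pool.Agent.H24.HES.Pai
import Pool.Agent.H24.HES.Cnl

/-!
# The sheets of a member: the numbers
-/

set_option autoImplicit false

namespace Pool.HSC

open Finset Real
open Pool.PLN (ex ex_pos ex_add ex_neg ex_le ex_le_one one_le_ex ex_two_pow two_le_ex ex_le_two
  floor_le_ex ex_le_floor exp_le_ex mul_ex_le ex_neg_one)

/-- A power against an exponent, from below. -/
theorem inv_two_le {k : ℕ} {x : ℝ} {J : ℕ} (h : x * J ≤ k) : (1 : ℝ) / 2 ^ k ≤ ex x J := by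
  have h1 := ex_le_two h
  rw [ex_neg] at h1
  have h2 := ex_pos x J
  rw [div_le_iff₀ (by positivity)]
  have h3 := mul_le_mul_of_nonneg_left h1 h2.le
  rwa [mul_inv_cancel₀ h2.ne'] at h3

/-- A quotient of powers. -/
theorem quo_two {a b : ℕ} {x : ℝ} {J : ℕ} (h : (a : ℝ) - b ≤ x * J) :
    (2 : ℝ) ^ a / 2 ^ b ≤ ex (-x) J := by
  rw [div_le_iff₀ (by positivity)]
  have hl : 0 < Real.log 2 := Real.log_pos one_lt_two
  have e1 : ∀ n : ℕ, (2 : ℝ) ^ n = Real.exp (n * Real.log 2) := by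
    intro n
    rw [Real.exp_nat_mul, Real.exp_log two_pos]
  rw [e1, e1]
  unfold Pool.PLN.ex
  rw [← Real.exp_add]
  refine Real.exp_le_exp.2 ?_
  have h2 := mul_le_mul_of_nonneg_right h hl.le
  nlinarith

/-- **The natural coefficients are bounded.** -/
theorem num_siz {b h r φ : ℝ} {J : ℕ} (hφ : 0 < φ) (hr : 0 < r) (hh : 0 < h)
    (hJ : 5190 ≤ ex (-(b - (6 * φ + 3 * r + 2 * h))) J) {S g₀ G g₁ T Λ x ρ χ Ee : ℝ} (hS : 0 ≤ S)
    (hG : 0 ≤ G) (hT : 0 < T) (hg0 : 0 < g₀) (hg1 : 0 < g₁)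
    (a1 : S / g₀ ≤ ex (-(2 * φ)) J) (a2 : G / g₁ ≤ ex (-(2 * φ)) J) (a3 : S ≤ T) (a4 : G ≤ T)
    (hΛ : 0 ≤ Λ) (a5 : Λ ≤ ex (-(2 * φ)) J) (hx : 0 ≤ x) (a6 : x ≤ 1) (hρ : 0 < ρ)
    (a7 : 1 / ρ ≤ ex (-r) J) (hχ : χ = ex h J) (hEe : Ee = ex (-r) J) :
    1 + 2 * x + (1 + S / g₀ + G / g₁) * ((4 + 14 * x) / (ρ * χ)) *
      (1 + (Ee + (2 * (G / g₁ + (1 + Λ) * (G / T))) / ρ) / χ) *
      (1 + (1 + 2 * (S / g₀ + S / T) / ρ)) ≤ 2 ^ ⌊b * J⌋₊ := by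
  obtain ⟨E, hE⟩ : ∃ E, E = ex (-(2 * φ)) J := ⟨_, rfl⟩
  obtain ⟨R, hR⟩ : ∃ R, R = ex (-r) J := ⟨_, rfl⟩
  obtain ⟨X, hX⟩ : ∃ X, X = ex (-h) J := ⟨_, rfl⟩
  have E1 : 1 ≤ E := by
    rw [hE]
    exact one_le_ex (by linarith) J
  have R1 : 1 ≤ R := by
    rw [hR]
    exact one_le_ex (by linarith) J
  have X1 : 1 ≤ X := by
    rw [hX]
    exact one_le_ex (by linarith) J
  rw [← hE] at a1 a2 a5
  rw [← hR] at a7 hEe
  have hχX : 1 / χ = X := by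
    rw [hχ, hX, ex_neg, one_div]
  have hχ0 : 0 < χ := by
    rw [hχ]
    exact ex_pos _ _
  have s1 : S / T ≤ 1 := by
    rw [div_le_one hT]
    exact a3
  have s2 : G / T ≤ 1 := by
    rw [div_le_one hT]
    exact a4
  have s10 : 0 ≤ S / T := by positivity
  have s20 : 0 ≤ G / T := by positivity
  have a10 : 0 ≤ S / g₀ := by positivity
  have a20 : 0 ≤ G / g₁ := by positivity
  have f1 : 1 + S / g₀ + G / g₁ ≤ 3 * E := by linarith
  have f2 : (4 + 14 * x) / (ρ * χ) ≤ 18 * (R * X) := by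
    have e1 : (4 + 14 * x) / (ρ * χ) = (4 + 14 * x) * ((1 / ρ) * (1 / χ)) := by field_simp
    rw [e1, hχX]
    exact mul_le_mul (by linarith) (mul_le_mul_of_nonneg_right a7 (by linarith)) (by positivity)
      (by norm_num)
  have f3 : 1 + (Ee + (2 * (G / g₁ + (1 + Λ) * (G / T))) / ρ) / χ ≤ 8 * (E * R * X) := by
    have e1 : (Ee + (2 * (G / g₁ + (1 + Λ) * (G / T))) / ρ) / χ =
        (Ee + 2 * (G / g₁ + (1 + Λ) * (G / T)) * (1 / ρ)) * (1 / χ) := by field_simp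
    rw [e1, hχX, hEe]
    have h1 : G / g₁ + (1 + Λ) * (G / T) ≤ 3 * E := by
      have h2 : (1 + Λ) * (G / T) ≤ (1 + Λ) * 1 := mul_le_mul_of_nonneg_left s2 (by linarith)
      linarith
    have h2 : 2 * (G / g₁ + (1 + Λ) * (G / T)) * (1 / ρ) ≤ 2 * (3 * E) * R :=
      mul_le_mul (by linarith) a7 (by positivity) (by linarith)
    have h3 : R + 2 * (G / g₁ + (1 + Λ) * (G / T)) * (1 / ρ) ≤ 7 * (E * R) := by nlinarith
    have h4 := mul_le_mul_of_nonneg_right h3 (show 0 ≤ X by linarith)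
    have h5 : 1 ≤ E * R * X := by
      have h6 : 1 ≤ E * R := one_le_mul_of_one_le_of_one_le E1 R1
      exact one_le_mul_of_one_le_of_one_le h6 X1
    linarith
  have f4 : 1 + (1 + 2 * (S / g₀ + S / T) / ρ) ≤ 6 * (E * R) := by
    have e1 : 2 * (S / g₀ + S / T) / ρ = 2 * (S / g₀ + S / T) * (1 / ρ) := by field_simp
    rw [e1]
    have h2 : 2 * (S / g₀ + S / T) * (1 / ρ) ≤ 2 * (2 * E) * R :=
      mul_le_mul (by linarith) a7 (by positivity) (by linarith)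
    have h6 : 1 ≤ E * R := one_le_mul_of_one_le_of_one_le E1 R1
    linarith
  have g1 : (1 + S / g₀ + G / g₁) * ((4 + 14 * x) / (ρ * χ)) *
      (1 + (Ee + (2 * (G / g₁ + (1 + Λ) * (G / T))) / ρ) / χ) *
      (1 + (1 + 2 * (S / g₀ + S / T) / ρ)) ≤
      (3 * E) * (18 * (R * X)) * (8 * (E * R * X)) * (6 * (E * R)) := by
    have hE0 : 0 ≤ Ee := by
      rw [hEe]
      linarith
    refine mul_le_mul (mul_le_mul (mul_le_mul f1 f2 (by positivity) (by linarith)) f3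
      (by positivity) (by positivity)) f4 (by positivity) (by positivity)
  have e2 : (3 * E) * (18 * (R * X)) * (8 * (E * R * X)) * (6 * (E * R)) =
      2592 * (E ^ 3 * R ^ 3 * X ^ 2) := by ring
  rw [e2] at g1
  have h7 : 1 ≤ E ^ 3 * R ^ 3 * X ^ 2 :=
    one_le_mul_of_one_le_of_one_le (one_le_mul_of_one_le_of_one_le (one_le_pow₀ E1)
      (one_le_pow₀ R1)) (one_le_pow₀ X1)
  have e3 : E ^ 3 * R ^ 3 * X ^ 2 = ex (-(6 * φ + 3 * r + 2 * h)) J := by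
    rw [hE, hR, hX, Pool.PLN.ex_pow, Pool.PLN.ex_pow, Pool.PLN.ex_pow, ← ex_add, ← ex_add]
    congr 1
    push_cast
    ring
  have h8 : 2595 * (E ^ 3 * R ^ 3 * X ^ 2) ≤ 2 ^ ⌊b * J⌋₊ := by
    have h9 := ex_le_floor b J
    have h10 : 5190 * ex (-(6 * φ + 3 * r + 2 * h)) J ≤ ex (-b) J := by
      refine mul_ex_le (hJ.trans (ex_le ?_ J))
      linarith
    rw [e3]
    linarith
  linarith

/-- **The loss of the rounding.** -/
theorem num_the {b h r φ f w g : ℝ} {J : ℕ} (hφ : 0 < φ)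
    (hw : w + f ≤ 1) (hg : g + f ≤ 1) (hJ : 384 ≤ ex (-(b - (h + r + 6 * φ))) J)
    {S G Λ ρ χ : ℝ} (hS : 0 ≤ S) (hG : 0 ≤ G) (a1 : S ≤ ex (-w) J) (a2 : G ≤ ex (-(g + φ)) J)
    (hΛ : 0 ≤ Λ) (a5 : Λ ≤ ex (-(2 * φ)) J) (hρ : 0 < ρ) (a7 : 1 / ρ ≤ ex (-r) J)
    (hχ : χ = ex h J) :
    2 * (S + (1 + Λ) * G) * (1 / 2 ^ J) / (χ * ρ) ≤ ex (f - b + 2 * φ) J / 64 := by
  have hχX : 1 / χ = ex (-h) J := by
    rw [hχ, ex_neg, one_div]
  have hχ0 : 0 < χ := by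
    rw [hχ]
    exact ex_pos _ _
  have E1 : 1 ≤ ex (-(2 * φ)) J := one_le_ex (by linarith) J
  have h2J : (1 : ℝ) / 2 ^ J = ex 1 J := by
    have h1 := ex_neg_one J
    rw [ex_neg] at h1
    rw [← h1, one_div, inv_inv]
  have e1 : 2 * (S + (1 + Λ) * G) * (1 / 2 ^ J) / (χ * ρ) =
      2 * (S + (1 + Λ) * G) * (1 / 2 ^ J) * ((1 / ρ) * (1 / χ)) := by field_simp
  rw [e1, hχX, h2J]
  have h3 : S + (1 + Λ) * G ≤ 3 * ex (-(1 - f + 3 * φ)) J := by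
    have h4 : ex (-w) J ≤ ex (-(1 - f + 3 * φ)) J := ex_le (by linarith) J
    have h5 : (1 + Λ) * G ≤ (2 * ex (-(2 * φ)) J) * ex (-(g + φ)) J :=
      mul_le_mul (by linarith) a2 hG (by linarith)
    have h6 : ex (-(2 * φ)) J * ex (-(g + φ)) J ≤ ex (-(1 - f + 3 * φ)) J := by
      rw [← ex_add]
      exact ex_le (by linarith) J
    linarith
  have h4 : 2 * (S + (1 + Λ) * G) * ex 1 J * ((1 / ρ) * ex (-h) J) ≤
      2 * (3 * ex (-(1 - f + 3 * φ)) J) * ex 1 J * (ex (-r) J * ex (-h) J) := by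
    have p1 := ex_pos 1 J
    have p2 := ex_pos (-h) J
    refine mul_le_mul (mul_le_mul_of_nonneg_right (by linarith) p1.le)
      (mul_le_mul_of_nonneg_right a7 p2.le) (by positivity) ?_
    have p3 := ex_pos (-(1 - f + 3 * φ)) J
    positivity
  refine h4.trans ?_
  have e2 : 2 * (3 * ex (-(1 - f + 3 * φ)) J) * ex 1 J * (ex (-r) J * ex (-h) J) =
      6 * ex (f - 3 * φ - r - h) J := by
    have e3 : ex (f - 3 * φ - r - h) J =
        ex (-(1 - f + 3 * φ)) J * ex 1 J * (ex (-r) J * ex (-h) J) := by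
      rw [← ex_add, ← ex_add, ← ex_add]
      congr 1
      ring
    rw [e3]
    ring
  rw [e2]
  have h5 : 384 * ex (f - 3 * φ - r - h) J ≤ ex (f - b + 2 * φ) J := by
    refine mul_ex_le (hJ.trans (ex_le ?_ J))
    linarith
  linarith

end Pool.HSC
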