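import Pool.Agent.H24.HES.Prd

/-!
# The sheets of a member: two good samples of one line

`Gd`: a good sample: it is on its own sheet; the function of its line is near the sheet in the whole
window `w₀`; its velocity is not special. `pair_sh`: two good samples of one line in one window,
with separated times: the deviations from the sheets and the natural coefficients of the sheets.
-/

set_option autoImplicit false

namespace Pool.HSC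

open Finset Real MvPolynomial
open Pool.Agent.H49.Ent Pool.Agent.H32.Dense Pool.STK Pool.KA Pool.KSAT Pool.K2S Pool.PB
  Pool.STAT Pool.GEN Pool.M3F Pool.KM7 Pool.S6C Pool.JPN
open Pool.PLN (Nums Dat lpt pA)
open Pool.PLN.Dat (pA_pos px_x)
open Pool.PM (VNum VDat MNum MDat nx nt lev lfv)
open Pool.AFF (afv)

variable {m J : ℕ} {N : VNum} {φ : ℝ} {K : ℕ} {F : Fam m J} {c : ℕ → Fin m} {A : F.Ω → Prop}

/-- The sheet of a sample. -/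
noncomputable def Dw (d : VDat N φ K F c A) (D : d.V × d.U → Fin 4 → ℝ) (ω : F.Ω) : Fin 4 → ℝ :=
  D (d.z (ptr F J ω), d.u (ptr F J ω))

/-- The slope of the sheet along the line. -/
noncomputable def Dsl (d : VDat N φ K F c A) (D : d.V × d.U → Fin 4 → ℝ) (ω : F.Ω) : ℝ :=
  Dw d D ω 1 + Dw d D ω 2 * F.d ω (c 0) + Dw d D ω 3 * F.d ω (c 1)

/-- The chart of `c 1` at a sample. -/
noncomputable def Bw (d : VDat N φ K F c A) (ω : F.Ω) : Fin 3 → ℝ := Bc (d.Q (d.u (ptr F J ω)))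

/-- **A good sample.** -/
structure Gd (d : VDat N φ K F c A) (j : ℕ) (D : d.V × d.U → Fin 4 → ℝ) (U V' : LnT F → ℝ)
    (η τ χ Ee : ℝ) (ω : F.Ω) : Prop where
  own : |ntc F c d.Q d.u ω j - afv (Dw d D ω) (px3 F c ω)| ≤ τ
  lin : ∀ t : ℝ, |t - F.t ω| ≤ 2 / 2 ^ ⌊N.w0 * J⌋₊ → |U (slam F ⌊N.w0 * J⌋₊ ω) +
    t * V' (slam F ⌊N.w0 * J⌋₊ ω) - afv (Dw d D ω) (lpt F c ω t)| ≤ η
  con1 : |Dw d D ω 1 + Dw d D ω 3 * d.pl ω 1| * χ ≤ |Dsl d D ω|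
  con2 : |Dw d D ω 2 + Dw d D ω 3 * d.pl ω 2| * χ ≤ |Dsl d D ω|
  con3 : |Dw d D ω 3| * (2 ^ ⌊N.w0 * J⌋₊ / 2 ^ d.G0) * χ ≤ |Dsl d D ω|
  pla : ∀ i : Fin 3, i ≠ 0 → |Bw d ω i - d.pl ω i| * χ ≤
    |(Bw d ω 1 - d.pl ω 1) + (Bw d ω 2 - d.pl ω 2) * F.d ω (c 0)|
  ez : |d.Ez ω| ≤ Ee

/-- Two values of an affine function. -/
theorem two_val {S ρ t t' U V x : ℝ} (hS : 0 < S) (hρ : 0 < ρ) (hsep : ρ / S ≤ |t - t'|)
    (h : |U + t * V| ≤ x) (h' : |U + t' * V| ≤ x) : |V| ≤ S / ρ * (2 * x) := by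
  have h3 : |V| * (ρ / S) ≤ 2 * x := by
    calc |V| * (ρ / S) ≤ |V| * |t - t'| := mul_le_mul_of_nonneg_left hsep (abs_nonneg _)
      _ = |(U + t * V) - (U + t' * V)| := by
          rw [← abs_mul]
          congr 1
          ring
      _ ≤ x + x := (abs_sub _ _).trans (add_le_add h h')
      _ = _ := by ring
  calc |V| = S / ρ * (|V| * (ρ / S)) := by field_simp
    _ ≤ _ := mul_le_mul_of_nonneg_left h3 (by positivity)

section pair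

variable {d : VDat N φ K F c A}

theorem u_eq {ω ω' : F.Ω} (hω : A ω) (hω' : A ω')
    (hs : slam F ⌊N.w0 * J⌋₊ ω = slam F ⌊N.w0 * J⌋₊ ω') :
    d.u (ptr F J ω) = d.u (ptr F J ω') := by
  rw [d.clsU ω hω, d.clsU ω' hω', hs]

theorem pl_eq {ω ω' : F.Ω} (hω : A ω) (hω' : A ω')
    (hs : slam F ⌊N.w0 * J⌋₊ ω = slam F ⌊N.w0 * J⌋₊ ω') : d.pl ω = d.pl ω' := by
  unfold Pool.PLN.Dat.pl
  rw [d.lab0.cls ω hω, d.lab0.cls ω' hω', hs]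

/-- The slope of the chart of `c 0`. -/
theorem ay_le {ω ω' : F.Ω} (hω : A ω) (hω' : A ω')
    (hs : slam F ⌊N.w0 * J⌋₊ ω = slam F ⌊N.w0 * J⌋₊ ω') {ρ : ℝ} (hρ : 0 < ρ)
    (hsep : ρ / 2 ^ ⌊N.w0 * J⌋₊ ≤ |F.t ω - F.t ω'|) :
    |Ac (d.Q (d.u (ptr F J ω))) 1| ≤
      1 + 2 ^ ⌊N.w0 * J⌋₊ / ρ * (2 * (1 / 2 ^ d.gU 0 + 1 / 2 ^ J)) := by
  have hu := u_eq (d := d) hω hω' hs
  have hl : F.l ω = F.l ω' := congrArg (fun y => y.1) hs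
  have hul : F.u ω = F.u ω' := congrArg Prod.fst hl
  have hdl : F.d ω = F.d ω' := congrArg Prod.snd hl
  obtain ⟨a, ha⟩ : ∃ a, a = Ac (d.Q (d.u (ptr F J ω))) := ⟨_, rfl⟩
  have key : ∀ ω'' : F.Ω, A ω'' → F.u ω'' = F.u ω → F.d ω'' = F.d ω →
      d.u (ptr F J ω'') = d.u (ptr F J ω) →
      |(F.u ω (c 0) - a 0) + F.t ω'' * (F.d ω (c 0) - a 1)| ≤ 1 / 2 ^ d.gU 0 + 1 / 2 ^ J := by
    intro ω'' h1 h2 h3 h4
    have h5 := d.posU ω'' h1 0 (by norm_num)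
    rw [ntc_zero, h4, ← ha] at h5
    have h6 := px_x (F := F) c ω'' 0
    have e0 : px3 F c ω'' 0 = F.t ω'' := rfl
    have e1 : px3 F c ω'' 1 = px c (ptr F J ω'') (0 + 1) := rfl
    have e2 : F.x ω'' (c 0) = F.u ω (c 0) + F.t ω'' * F.d ω (c 0) := by
      unfold Fam.x
      rw [h2, h3]
    have e3 : (F.u ω (c 0) - a 0) + F.t ω'' * (F.d ω (c 0) - a 1) =
        (px3 F c ω'' 1 - (a 0 + a 1 * px3 F c ω'' 0)) -
          (px c (ptr F J ω'') (0 + 1) - F.x ω'' (c 0)) := by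
      rw [e0, e1, e2]
      ring
    rw [e3]
    exact (abs_sub _ _).trans (add_le_add h5 h6)
  have h1 := two_val (by positivity) hρ hsep (key ω hω rfl rfl rfl)
    (key ω' hω' hul.symm hdl.symm hu.symm)
  have h2 := F.dir ω (c 0)
  rw [← ha]
  have e1 : a 1 = F.d ω (c 0) - (F.d ω (c 0) - a 1) := by ring
  rw [e1]
  exact (abs_sub _ _).trans (add_le_add h2 h1)

/-- The chart of `c 1` and the planes. -/
theorem bz_le {ω ω' : F.Ω} (hω : A ω) (hω' : A ω')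
    (hs : slam F ⌊N.w0 * J⌋₊ ω = slam F ⌊N.w0 * J⌋₊ ω') {ρ χ Ee : ℝ} (hρ : 0 < ρ) (hχ : 0 < χ)
    (hsep : ρ / 2 ^ ⌊N.w0 * J⌋₊ ≤ |F.t ω - F.t ω'|)
    (pla : ∀ i : Fin 3, i ≠ 0 → |Bw d ω i - d.pl ω i| * χ ≤
      |(Bw d ω 1 - d.pl ω 1) + (Bw d ω 2 - d.pl ω 2) * F.d ω (c 0)|) (ez : |d.Ez ω| ≤ Ee)
    (i : Fin 3) (hi : i ≠ 0) :
    |Bw d ω i - d.pl ω i| ≤ (2 ^ ⌊N.w0 * J⌋₊ / 2 ^ d.G0 * Ee + 2 ^ ⌊N.w0 * J⌋₊ / ρ *
      (2 * (1 / 2 ^ d.gU 1 + (1 + Real.exp (φ * J)) * (1 / 2 ^ J)))) / χ := by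
  have hu := u_eq (d := d) hω hω' hs
  have hl : F.l ω = F.l ω' := congrArg (fun y => y.1) hs
  have hul : F.u ω = F.u ω' := congrArg Prod.fst hl
  have hdl : F.d ω = F.d ω' := congrArg Prod.snd hl
  obtain ⟨b, hb⟩ : ∃ b, b = Bc (d.Q (d.u (ptr F J ω))) := ⟨_, rfl⟩
  have hbw : Bw d ω = b := hb.symm
  have hb2 : |b 2| ≤ Real.exp (φ * J) := by
    have h1 := d.slU ω hω 2 (by norm_num) 1 (by norm_num)
    have e1 : b 2 = eval 0 (pderiv 1 (d.Q (d.u (ptr F J ω)) 2)) := by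
      rw [hb, ← cf_succ]
      rfl
    rwa [e1]
  have key : ∀ ω'' : F.Ω, A ω'' → F.u ω'' = F.u ω → F.d ω'' = F.d ω →
      d.u (ptr F J ω'') = d.u (ptr F J ω) →
      |(F.u ω (c 1) - b 0 - b 2 * F.u ω (c 0)) + F.t ω'' * (F.d ω (c 1) - b 1 -
        b 2 * F.d ω (c 0))| ≤ 1 / 2 ^ d.gU 1 + (1 + Real.exp (φ * J)) * (1 / 2 ^ J) := by
    intro ω'' h1 h2 h3 h4
    have h5 := d.posU ω'' h1 1 (by norm_num)
    rw [ntc_one, h4, ← hb] at h5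
    have h6 := px_x (F := F) c ω'' 0
    have h7 := px_x (F := F) c ω'' 1
    have e0 : px3 F c ω'' 0 = F.t ω'' := rfl
    have e1 : px3 F c ω'' 1 = px c (ptr F J ω'') (0 + 1) := rfl
    have e4 : px3 F c ω'' 2 = px c (ptr F J ω'') (1 + 1) := rfl
    have e2 : ∀ k, F.x ω'' k = F.u ω k + F.t ω'' * F.d ω k := by
      intro k
      unfold Fam.x
      rw [h2, h3]
    have e3 : (F.u ω (c 1) - b 0 - b 2 * F.u ω (c 0)) + F.t ω'' * (F.d ω (c 1) - b 1 -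
        b 2 * F.d ω (c 0)) = (px3 F c ω'' 2 - (b 0 + b 1 * px3 F c ω'' 0 + b 2 * px3 F c ω'' 1)) -
          (px c (ptr F J ω'') (1 + 1) - F.x ω'' (c 1)) +
          b 2 * (px c (ptr F J ω'') (0 + 1) - F.x ω'' (c 0)) := by
      rw [e0, e1, e4, e2, e2]
      ring
    rw [e3]
    have h8 : |b 2 * (px c (ptr F J ω'') (0 + 1) - F.x ω'' (c 0))| ≤
        Real.exp (φ * J) * (1 / 2 ^ J) := by
      rw [abs_mul]
      exact mul_le_mul hb2 h6 (abs_nonneg _) (Real.exp_pos _).le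
    refine (abs_add_le _ _).trans ((add_le_add ((abs_sub _ _).trans (add_le_add h5 h7)) h8).trans
      (le_of_eq ?_))
    ring
  have h1 := two_val (by positivity) hρ hsep (key ω hω rfl rfl rfl)
    (key ω' hω' hul.symm hdl.symm hu.symm)
  rw [le_div_iff₀ hχ]
  refine (pla i hi).trans ?_
  rw [hbw]
  have pS : (0 : ℝ) < 2 ^ ⌊N.w0 * J⌋₊ := by positivity
  have pG : (0 : ℝ) < 2 ^ d.G0 := by positivity
  have h2 : |F.d ω (c 1) - d.pl ω 1 - d.pl ω 2 * F.d ω (c 0)| ≤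
      2 ^ ⌊N.w0 * J⌋₊ / 2 ^ d.G0 * Ee := by
    have e1 : F.d ω (c 1) - d.pl ω 1 - d.pl ω 2 * F.d ω (c 0) =
        2 ^ ⌊N.w0 * J⌋₊ / 2 ^ d.G0 * d.Ez ω := by
      unfold Pool.PLN.Dat.Ez
      field_simp
    rw [e1, abs_mul, abs_of_pos (by positivity : (0 : ℝ) < 2 ^ ⌊N.w0 * J⌋₊ / 2 ^ d.G0)]
    exact mul_le_mul_of_nonneg_left ez (by positivity)
  have e2 : (b 1 - d.pl ω 1) + (b 2 - d.pl ω 2) * F.d ω (c 0) =
      (F.d ω (c 1) - d.pl ω 1 - d.pl ω 2 * F.d ω (c 0)) -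
        (F.d ω (c 1) - b 1 - b 2 * F.d ω (c 0)) := by ring
  rw [e2]
  exact (abs_sub _ _).trans (add_le_add h2 h1)

/-- **Two good samples of one line.** -/
theorem pair_sh {j : ℕ} {D : d.V × d.U → Fin 4 → ℝ} {U V' : LnT F → ℝ} {η τ χ Ee ρ θ H : ℝ}
    (hWJ : ⌊N.w0 * J⌋₊ ≤ J) (hη : 0 ≤ η) (hχ : 0 < χ) (hρ : 0 < ρ) (hρ1 : ρ ≤ 1)
    (hEe : 0 ≤ Ee) {ω ω' : F.Ω} (hω : A ω) (hω' : A ω')
    (hs : slam F ⌊N.w0 * J⌋₊ ω = slam F ⌊N.w0 * J⌋₊ ω') (g : Gd d j D U V' η τ χ Ee ω)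
    (g' : Gd d j D U V' η τ χ Ee ω')
    (hsep : ρ ≤ |nt F ⌊N.w0 * J⌋₊ ω - nt F ⌊N.w0 * J⌋₊ ω'|)
    (hj : |ntc F c d.Q d.u ω j| ≤ 1 / 2 ^ d.gU j) (hj' : |ntc F c d.Q d.u ω' j| ≤ 1 / 2 ^ d.gU j)
    (hθ : 2 * (2 ^ ⌊N.w0 * J⌋₊ + (1 + Real.exp (φ * J)) * 2 ^ d.G0) * (1 / 2 ^ J) / (χ * ρ) ≤ θ)
    (hθ1 : θ ≤ 1 / 2)
    (hH : 1 + 2 ^ d.gU j * τ + (1 + 2 ^ ⌊N.w0 * J⌋₊ / 2 ^ d.gU 0 + 2 ^ d.G0 / 2 ^ d.gU 1) *
      ((4 + 2 ^ d.gU j * (4 * τ + 6 * η)) / (ρ * χ)) *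
      (1 + (Ee + (2 * (2 ^ d.G0 / 2 ^ d.gU 1 + (1 + Real.exp (φ * J)) * (2 ^ d.G0 / 2 ^ J))) / ρ) /
        χ) *
      (1 + (1 + 2 * (2 ^ ⌊N.w0 * J⌋₊ / 2 ^ d.gU 0 + 2 ^ ⌊N.w0 * J⌋₊ / 2 ^ J) / ρ)) ≤ H) :
    d.lb.dev c ⌊N.w0 * J⌋₊ j (shl d j D) ω ω ≤ 2 ^ d.gU j * τ ∧
    d.lb.dev c ⌊N.w0 * J⌋₊ j (shl d j D) ω ω' ≤ 2 ^ d.gU j * (τ + 2 * η) +
      2 * θ * (2 + 2 ^ d.gU j * (2 * τ + 3 * η)) ∧
    ∀ i, |d.lb.sh (shl d j D) ω ω i| ≤ H ∧ |d.lb.sh (shl d j D) ω ω' i| ≤ H := by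
  obtain ⟨S, hSe⟩ : ∃ S : ℝ, S = 2 ^ ⌊N.w0 * J⌋₊ := ⟨_, rfl⟩
  obtain ⟨G, hGe⟩ : ∃ G : ℝ, G = 2 ^ d.G0 := ⟨_, rfl⟩
  obtain ⟨g₀, hg₀⟩ : ∃ x : ℝ, x = 2 ^ d.gU 0 := ⟨_, rfl⟩
  obtain ⟨g₁, hg₁⟩ : ∃ x : ℝ, x = 2 ^ d.gU 1 := ⟨_, rfl⟩
  obtain ⟨gj, hgj⟩ : ∃ x : ℝ, x = 2 ^ d.gU j := ⟨_, rfl⟩
  obtain ⟨δ, hδe⟩ : ∃ x : ℝ, x = 1 / 2 ^ J := ⟨_, rfl⟩
  obtain ⟨Λ, hΛe⟩ : ∃ x : ℝ, x = Real.exp (φ * J) := ⟨_, rfl⟩
  have pS : 0 < S := by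
    rw [hSe]
    positivity
  have pG : 0 < G := by
    rw [hGe]
    positivity
  have p0 : 0 < g₀ := by
    rw [hg₀]
    positivity
  have p1 : 0 < g₁ := by
    rw [hg₁]
    positivity
  have pj : 0 < gj := by
    rw [hgj]
    positivity
  have pδ : 0 < δ := by
    rw [hδe]
    positivity
  have pΛ : 0 < Λ := by
    rw [hΛe]
    exact Real.exp_pos _
  have hτ0 : 0 ≤ τ := (abs_nonneg _).trans g.own
  have hu := u_eq (d := d) hω hω' hs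
  have hp := pl_eq (d := d) hω hω' hs
  have hl : F.l ω = F.l ω' := congrArg (fun y => y.1) hs
  have hul : F.u ω = F.u ω' := congrArg Prod.fst hl
  have hdl : F.d ω = F.d ω' := congrArg Prod.snd hl
  have hT : F.T1 ⌊N.w0 * J⌋₊ ω = F.T1 ⌊N.w0 * J⌋₊ ω' := congrArg (fun y => y.2.2) hs
  -- the times
  have hsep2 : ρ / S ≤ |F.t ω - F.t ω'| := by
    have e1 : nt F ⌊N.w0 * J⌋₊ ω - nt F ⌊N.w0 * J⌋₊ ω' = S * (F.t ω - F.t ω') := by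
      unfold Pool.PM.nt
      rw [hT, hSe]
      ring
    rw [e1, abs_mul, abs_of_pos pS] at hsep
    rw [div_le_iff₀ pS]
    linarith
  have tw : |F.t ω' - F.t ω| ≤ 2 / S := by
    have h1 := Pool.PLN.t_win F hWJ hT.symm
    rw [← hSe] at h1
    refine h1.trans ?_
    refine div_le_div_of_nonneg_right (by norm_num) pS.le
  have t0 : |F.t ω - F.t ω| ≤ 2 / S := by
    rw [sub_self, abs_zero]
    positivity
  have t0' : |F.t ω' - F.t ω'| ≤ 2 / S := by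
    rw [sub_self, abs_zero]
    positivity
  have t2 : |F.t ω + 2 / S - F.t ω| ≤ 2 / S := by
    rw [add_sub_cancel_left, abs_of_pos (by positivity)]
  have t2' : |F.t ω' + 2 / S - F.t ω'| ≤ 2 / S := by
    rw [add_sub_cancel_left, abs_of_pos (by positivity)]
  have lin := g.lin
  have lin' := g'.lin
  rw [← hSe, hs] at lin
  rw [← hSe] at lin'
  obtain ⟨x, hx⟩ : ∃ x, x = U (slam F ⌊N.w0 * J⌋₊ ω') := ⟨_, rfl⟩
  obtain ⟨v, hv⟩ : ∃ v, v = V' (slam F ⌊N.w0 * J⌋₊ ω') := ⟨_, rfl⟩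
  rw [← hx, ← hv] at lin lin'
  have el : ∀ t, lpt F c ω t = lp (F.u ω (c 0)) (F.d ω (c 0)) (F.u ω (c 1)) (F.d ω (c 1)) t :=
    fun t => rfl
  have el' : ∀ t, lpt F c ω' t =
      lp (F.u ω (c 0)) (F.d ω (c 0)) (F.u ω (c 1)) (F.d ω (c 1)) t := by
    intro t
    rw [hul, hdl]
    rfl
  have rx : ∀ ω : F.Ω, ∀ i : ℕ, |px c (ptr F J ω) (i + 1) - (F.u ω (c i) + F.t ω * F.d ω (c i))| ≤
      δ := by
    intro ω i
    rw [hδe]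
    exact px_x (F := F) c ω i
  have rx' : ∀ i : ℕ, |px c (ptr F J ω') (i + 1) - (F.u ω (c i) + F.t ω' * F.d ω (c i))| ≤ δ := by
    intro i
    rw [hul, hdl]
    exact rx ω' i
  obtain ⟨E, hE⟩ : ∃ E, E = Dw d D ω := ⟨_, rfl⟩
  obtain ⟨E', hE'⟩ : ∃ E', E' = Dw d D ω' := ⟨_, rfl⟩
  have own := g.own
  have own' := g'.own
  have c1 := g.con1
  have c2 := g.con2
  have c3 := g.con3
  have c1' := g'.con1
  have c2' := g'.con2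
  have c3' := g'.con3
  unfold Dsl at c1 c2 c3 c1' c2' c3'
  rw [← hSe, ← hGe] at c3 c3'
  rw [← hE] at own c1 c2 c3 lin
  rw [← hE'] at own' c1' c2' c3' lin'
  rw [← hp, ← hdl] at c1' c2'
  rw [← hdl] at c3'
  have hpl : |d.pl ω 2| ≤ Λ := by
    rw [hΛe]
    exact d.siz0 ω hω 2
  rw [← hSe, ← hGe, ← hδe, ← hΛe] at hθ
  rw [← hgj] at hj hj'
  have l1 := lin _ t0
  have l2 := lin _ t2
  have l3 := lin _ tw
  have l1' := lin' _ t0'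
  have l2' := lin' _ t2'
  have l3' := lin' (F.t ω) (by
    rw [abs_sub_comm]
    exact tw)
  rw [el] at l1 l2 l3
  rw [el'] at l1' l2' l3'
  obtain ⟨s1, s1', hQ⟩ := core (S := S) (ρ := ρ) (η := η) (δ := δ) (m := 1 / gj) (τ := τ)
    (χ := χ) (G := G) (Λ := Λ) (θ := θ) (p₂ := d.pl ω 2) (b := px3 F c ω) (b' := px3 F c ω')
    pS hρ hρ1 hη pδ.le hχ pG hpl hsep2 l1 l2 l1' l2' rfl (rx ω 0) (rx ω 1) rfl (rx' 0) (rx' 1)
    own hj own' hj' c2 c3 c2' c3' hθ hθ1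
  -- the deviations
  have e1 : Dw d D ω = D (d.z (ptr F J ω), d.u (ptr F J ω)) := rfl
  have e2 : Dw d D ω' = D (d.z (ptr F J ω'), d.u (ptr F J ω)) := by
    rw [hu]
    rfl
  have dv := dev_le (b := px3 F c ω) l1 l3' rfl (rx ω 0) (rx ω 1) own
  refine ⟨?_, ?_, ?_⟩
  · rw [dev_shl d j D hω rfl, ← e1, ← hE, ← hgj]
    exact mul_le_mul_of_nonneg_left own pj.le
  · rw [dev_shl d j D hω' hs, ← e2, ← hE', ← hgj]
    have h1 := mul_le_mul_of_nonneg_left (dv.trans (add_le_add le_rfl hQ)) pj.le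
    refine h1.trans (le_of_eq ?_)
    field_simp
    ring
  · -- the coefficients
    obtain ⟨a, ha⟩ : ∃ a : ℝ, a = 1 + S / ρ * (2 * (1 / g₀ + δ)) := ⟨_, rfl⟩
    obtain ⟨Y, hY⟩ : ∃ Y : ℝ, Y = (S / G * Ee + S / ρ * (2 * (1 / g₁ + (1 + Λ) * δ))) / χ :=
      ⟨_, rfl⟩
    obtain ⟨s, hse⟩ : ∃ s : ℝ, s = S / ρ * (4 * (1 / gj) + 4 * τ + 6 * η) := ⟨_, rfl⟩
    have hA : |Ac (d.Q (d.u (ptr F J ω))) 1| ≤ a := by
      have h1 := ay_le (d := d) hω hω' hs hρ (by rwa [← hSe])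
      rwa [← hSe, ← hg₀, ← hδe, ← ha] at h1
    have hB : ∀ i : Fin 3, i ≠ 0 → |Bc (d.Q (d.u (ptr F J ω))) i - d.pl ω i| ≤ Y := by
      intro i hi
      have h1 := bz_le (d := d) hω hω' hs hρ hχ (by rwa [← hSe]) g.pla g.ez i hi
      rwa [← hSe, ← hGe, ← hg₁, ← hδe, ← hΛe, ← hY] at h1
    rw [← hse] at s1 s1'
    have hX : s ≤ (s / χ) * χ := by
      rw [div_mul_cancel₀ _ hχ.ne']
    have tt : ∀ ω : F.Ω, |S * px3 F c ω 0 - F.T1 ⌊N.w0 * J⌋₊ ω| ≤ 1 := by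
      intro ω
      have h1 := Pool.PLA.t_win hWJ ω
      have e3 : S * px3 F c ω 0 - F.T1 ⌊N.w0 * J⌋₊ ω =
          S * (F.t ω - (F.T1 ⌊N.w0 * J⌋₊ ω : ℝ) / 2 ^ ⌊N.w0 * J⌋₊) := by
        have e4 : px3 F c ω 0 = F.t ω := rfl
        rw [e4, hSe]
        field_simp
      rw [e3, abs_mul, abs_of_pos pS]
      calc S * |F.t ω - (F.T1 ⌊N.w0 * J⌋₊ ω : ℝ) / 2 ^ ⌊N.w0 * J⌋₊| ≤ S * (1 / S) := by
            refine mul_le_mul_of_nonneg_left ?_ pS.le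
            rw [hSe]
            exact h1
        _ = 1 := by field_simp
    have nn : ∀ ω : F.Ω, A ω → |g₀ * ntc F c d.Q d.u ω 0| ≤ 1 ∧
        |g₁ * ntc F c d.Q d.u ω 1| ≤ 1 := by
      intro ω hω
      have h1 := d.posU ω hω 0 (by norm_num)
      have h2 := d.posU ω hω 1 (by norm_num)
      rw [← hg₀] at h1
      rw [← hg₁] at h2
      rw [abs_mul, abs_mul, abs_of_pos p0, abs_of_pos p1]
      constructor
      · calc g₀ * |ntc F c d.Q d.u ω 0| ≤ g₀ * (1 / g₀) := mul_le_mul_of_nonneg_left h1 p0.le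
          _ = 1 := by field_simp
      · calc g₁ * |ntc F c d.Q d.u ω 1| ≤ g₁ * (1 / g₁) := mul_le_mul_of_nonneg_left h2 p1.le
          _ = 1 := by field_simp
    have vv : ∀ (n : ℝ) (E : Fin 4 → ℝ) (b : Fin 3 → ℝ), |n - afv E b| ≤ τ → |n| ≤ 1 / gj →
        |gj * afv E b| ≤ 1 + gj * τ := by
      intro n E b h1 h2
      have e3 : afv E b = n - (n - afv E b) := by ring
      rw [abs_mul, abs_of_pos pj, e3]
      calc gj * |n - (n - afv E b)| ≤ gj * (1 / gj + τ) :=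
            mul_le_mul_of_nonneg_left ((abs_sub _ _).trans (add_le_add h2 h1)) pj.le
        _ = 1 + gj * τ := by field_simp
    have fin : 1 + gj * τ + (1 + S / g₀ + G / g₁) * (gj * (s / χ) / S) * (1 + G * Y / S) *
        (1 + a) ≤ H := by
      refine le_trans (le_of_eq ?_) hH
      rw [← hSe, ← hGe, ← hg₀, ← hg₁, ← hgj, ← hΛe]
      have e3 : gj * (s / χ) / S = (4 + gj * (4 * τ + 6 * η)) / (ρ * χ) := by
        rw [hse]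
        field_simp
        ring
      have e4 : G * Y / S = (Ee + (2 * (G / g₁ + (1 + Λ) * (G / 2 ^ J))) / ρ) / χ := by
        rw [hY, hδe]
        field_simp
      have e5 : a = 1 + 2 * (S / g₀ + S / 2 ^ J) / ρ := by
        rw [ha, hδe]
        field_simp
      rw [e3, e4, e5]
    intro i
    have n1 := nn ω hω
    have n1' := nn ω' hω'
    rw [ntc_zero, ntc_one] at n1 n1'
    rw [← hu] at n1'
    constructor
    · refine (siz_core (T := tk d (d.z (ptr F J ω))) (s := s) pS p0 p1 pj pG hχ hX (c1.trans s1)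
        (c2.trans s1) (c3.trans s1) hA (hB 1 (by decide)) (hB 2 (by decide)) (b := px3 F c ω)
        ?_ n1.1 n1.2 (vv _ _ _ own hj) i).trans fin |>.trans' (le_of_eq ?_)
      · rw [tk_eq d hω]
        exact tt ω
      · show |shl d j D (d.z (ptr F J ω)) (d.u (ptr F J ω)) i| = _
        unfold shl
        rw [← e1, ← hE, hSe, hg₀, hg₁, hgj]
    · refine (siz_core (T := tk d (d.z (ptr F J ω'))) (s := s) pS p0 p1 pj pG hχ hX (c1'.trans s1')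
        (c2'.trans s1') (c3'.trans s1') hA (hB 1 (by decide)) (hB 2 (by decide))
        (b := px3 F c ω') ?_ n1'.1 n1'.2 (vv _ _ _ own' hj') i).trans fin |>.trans' (le_of_eq ?_)
      · rw [tk_eq d hω']
        exact tt ω'
      · show |shl d j D (d.z (ptr F J ω')) (d.u (ptr F J ω)) i| = _
        unfold shl
        rw [← e2, ← hE', hSe, hg₀, hg₁, hgj]

end pair

end Pool.HSC
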