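import Pool.Agent.H3.PM.Dat
import Pool.Agent.H58.AFF.HesT
import Pool.Agent.H93.PM.Afl
import Pool.Agent.H81.PLN.PolS
import Pool.Agent.H24.HES.Cor

/-!
# The sheets of a member in the chart of the window `w₀`: definitions

`lw`: the window `w₀` of a window `w₁`. `prd`: the labels with the chart. `Ac`, `Bc`: the
coefficients of the chart. `shl`: the sheet of a label in the natural coordinates of a chart.
`px3`: the rounded point.
-/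

set_option autoImplicit false

namespace Pool.HSC

open Finset Real MvPolynomial
open Pool.Agent.H49.Ent Pool.Agent.H32.Dense Pool.STK Pool.KA Pool.KSAT Pool.K2S Pool.PB
  Pool.STAT Pool.GEN Pool.M3F Pool.KM7 Pool.S6C Pool.JPN
open Pool.PLN (Nums Dat lpt pA)
open Pool.PM (VNum VDat MNum MDat nx nt lev lfv)
open Pool.PM93 (IsAf afp eval_afp IsAf.eq)
open Pool.AFF (afv)

variable {m J : ℕ}

/-- The window `w₀` of a window `w₁`. -/
def lw {F : Fam m J} (W₀ W₁ : ℕ) (s : LnT F) : LnT F := (s.1, s.2.1, s.2.2 / 2 ^ (W₁ - W₀))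

theorem lw_slam {F : Fam m J} {W₀ W₁ : ℕ} (h : W₀ ≤ W₁) (h' : W₁ ≤ J) (ω : F.Ω) :
    lw W₀ W₁ (slam F W₁ ω) = slam F W₀ ω := by
  have h1 : F.T1 W₀ ω = F.T1 W₁ ω / 2 ^ (W₁ - W₀) := by
    have h2 := T1_div F (w := W₀) (K := W₁ - W₀) (by omega) ω
    rwa [Nat.add_sub_cancel' h] at h2
  unfold lw slam
  simp only
  rw [h1]

/-- The coefficients of an affine polynomial. -/
noncomputable def cf (Q : PN) (l : ℕ) : ℝ :=
  if l = 0 then eval 0 Q else eval 0 (pderiv (l - 1) Q)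

theorem cf_zero (Q : PN) : cf Q 0 = eval 0 Q := if_pos rfl

theorem cf_succ (Q : PN) (l : ℕ) : cf Q (l + 1) = eval 0 (pderiv l Q) := by
  unfold cf
  rw [if_neg (Nat.succ_ne_zero l), Nat.add_sub_cancel]

theorem eval_cf {i : ℕ} {Q : PN} (h : IsAf i Q) (b : ℕ → ℝ) :
    eval b Q = cf Q 0 + ∑ l ∈ range (i + 1), cf Q (l + 1) * b l := by
  classical
  obtain ⟨α, hα⟩ := h.eq
  have h0 : cf Q 0 = α 0 := by
    rw [cf_zero, hα, eval_afp]
    simp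
  have h1 : ∀ l ∈ range (i + 1), cf Q (l + 1) = α (l + 1) := by
    intro l hl
    rw [cf_succ, hα]
    unfold afp
    rw [map_add, pderiv_C, zero_add, map_sum, map_sum, Finset.sum_eq_single l]
    · rw [pderiv_C_mul, pderiv_X_self, mul_one, eval_C]
    · intro j _ hj
      rw [pderiv_C_mul, pderiv_X_of_ne hj, mul_zero, map_zero]
    · intro h
      exact absurd hl h
  rw [h0, Finset.sum_congr rfl fun l hl => by rw [h1 l hl], hα, eval_afp]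

/-- The rounded point: the time and the first two coordinates. -/
noncomputable def px3 (F : Fam m J) (c : ℕ → Fin m) (ω : F.Ω) : Fin 3 → ℝ :=
  fun i => px c (ptr F J ω) i

variable {N : VNum} {φ : ℝ} {K : ℕ} {F : Fam m J} {c : ℕ → Fin m} {A : F.Ω → Prop}

/-- **The labels with the chart.** -/
noncomputable def prd (d : VDat N φ K F c A) (h01 : ⌊N.w0 * J⌋₊ ≤ ⌊N.w1 * J⌋₊) (h1 : ⌊N.w1 * J⌋₊ ≤ J) :
    Dat N.toNums φ K F c A where
  V := d.V × d.U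
  V0 := d.V0
  z := fun ξ => (d.z ξ, d.u ξ)
  z' := fun s => (d.z' s, d.u' (lw ⌊N.w0 * J⌋₊ ⌊N.w1 * J⌋₊ s))
  P := fun v => d.P v.1
  g' := d.g'
  sg := d.sg
  zz := d.zz
  zz' := d.zz'
  P0 := d.P0
  g0' := d.g0'
  sg0 := d.sg0
  pr := fun v => d.pr v.1
  kap := d.kap
  L := d.L
  G0 := d.G0
  a := d.a
  lab :=
    { deg := fun v i => d.lab.deg v.1 i
      tri := fun v => d.lab.tri v.1
      cls := fun ω hω => by
        show (d.z (ptr F J ω), d.u (ptr F J ω)) = (d.z' (slam F ⌊N.w1 * J⌋₊ ω),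
          d.u' (lw ⌊N.w0 * J⌋₊ ⌊N.w1 * J⌋₊ (slam F ⌊N.w1 * J⌋₊ ω)))
        rw [lw_slam h01 h1, d.lab.cls ω hω, d.clsU ω hω]
      zero := fun ω hω => d.lab.zero ω hω
      pos := fun ω hω => d.lab.pos ω hω
      posN := fun ω hω => d.lab.posN ω hω
      grad := fun ω hω => d.lab.grad ω hω }
  lab0 := d.lab0
  prz := d.prz
  dg := fun v => d.dg v.1
  dg0 := d.dg0
  num := d.num
  num0 := d.num0
  nums := d.nums
  nums0 := d.nums0
  numz := d.numz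
  top := d.top
  top0 := d.top0
  srt := d.srt
  srt0 := d.srt0
  win := d.win
  win0 := d.win0
  kapφ := d.kapφ
  L0 := d.L0
  L1 := d.L1
  pos0 := d.pos0
  siz0 := d.siz0

/-- The chart of `c 0`. -/
noncomputable def Ac (Q : ℕ → PN) : Fin 2 → ℝ := fun i => cf (Q 1) i

/-- The chart of `c 1`. -/
noncomputable def Bc (Q : ℕ → PN) : Fin 3 → ℝ := fun i => cf (Q 2) i

theorem ntc_zero (d : VDat N φ K F c A) (ω : F.Ω) : ntc F c d.Q d.u ω 0 =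
    px3 F c ω 1 - (Ac (d.Q (d.u (ptr F J ω))) 0 + Ac (d.Q (d.u (ptr F J ω))) 1 * px3 F c ω 0) := by
  have h : IsAf 0 (d.Q (d.u (ptr F J ω)) 1) := ⟨d.aff _ _, d.tri _ _⟩
  have e : ∑ l ∈ range (0 + 1), cf (d.Q (d.u (ptr F J ω)) 1) (l + 1) * px c (ptr F J ω) l =
      cf (d.Q (d.u (ptr F J ω)) 1) 1 * px c (ptr F J ω) 0 := Finset.sum_range_one _
  unfold Pool.JPN.ntc
  rw [eval_cf h, e]
  rfl

theorem ntc_one (d : VDat N φ K F c A) (ω : F.Ω) : ntc F c d.Q d.u ω 1 =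
    px3 F c ω 2 - (Bc (d.Q (d.u (ptr F J ω))) 0 + Bc (d.Q (d.u (ptr F J ω))) 1 * px3 F c ω 0 +
      Bc (d.Q (d.u (ptr F J ω))) 2 * px3 F c ω 1) := by
  have h : IsAf 1 (d.Q (d.u (ptr F J ω)) 2) := ⟨d.aff _ _, d.tri _ _⟩
  unfold Pool.JPN.ntc
  rw [eval_cf h, Finset.sum_range_succ, Finset.sum_range_succ, Finset.sum_range_zero, zero_add,
    ← add_assoc]
  rfl

/-- The first time digits of a label. -/
noncomputable def tk (d : VDat N φ K F c A) (κ : d.V) : ℝ :=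
  2 ^ ⌊N.w0 * J⌋₊ * eval 0 (d.P0 (d.pr κ) 0)

theorem tk_eq (d : VDat N φ K F c A) {ω : F.Ω} (hω : A ω) :
    tk d (d.z (ptr F J ω)) = F.T1 ⌊N.w0 * J⌋₊ ω := by
  unfold tk
  rw [← d.prz ω hω, d.lab0.zero ω hω, eval_C]
  have h : (2 : ℝ) ^ ⌊N.w0 * J⌋₊ ≠ 0 := by positivity
  field_simp

/-- **The sheet of a label in the natural coordinates of a chart.** -/
noncomputable def shl (d : VDat N φ K F c A) (j : ℕ) (D : d.V × d.U → Fin 4 → ℝ) (κ : d.V)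
    (v : d.U) : Fin 4 → ℝ :=
  cnv (2 ^ ⌊N.w0 * J⌋₊) (2 ^ d.gU 0) (2 ^ d.gU 1) (2 ^ d.gU j) (tk d κ) (Ac (d.Q v)) (Bc (d.Q v))
    (D (κ, v))

/-- The value of the sheet. -/
theorem lfv_shl (d : VDat N φ K F c A) (j : ℕ) (D : d.V × d.U → Fin 4 → ℝ) {ω ω' : F.Ω}
    (hω' : A ω') (hs : slam F ⌊N.w0 * J⌋₊ ω = slam F ⌊N.w0 * J⌋₊ ω') :
    lfv F c d.Q d.u d.gU ⌊N.w0 * J⌋₊ (shl d j D (d.z (ptr F J ω')) (d.u (ptr F J ω))) ω =
      2 ^ d.gU j * afv (D (d.z (ptr F J ω'), d.u (ptr F J ω))) (px3 F c ω) := by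
  have hT : (F.T1 ⌊N.w0 * J⌋₊ ω : ℝ) = tk d (d.z (ptr F J ω')) := by
    rw [tk_eq d hω']
    have h1 : F.T1 ⌊N.w0 * J⌋₊ ω = F.T1 ⌊N.w0 * J⌋₊ ω' := congrArg (fun y => y.2.2) hs
    rw [h1]
  have h1 := lev_cnv (S := 2 ^ ⌊N.w0 * J⌋₊) (G₀ := 2 ^ d.gU 0) (G₁ := 2 ^ d.gU 1)
    (Gj := 2 ^ d.gU j) (T := tk d (d.z (ptr F J ω'))) (by positivity) (by positivity)
    (by positivity) (Ac (d.Q (d.u (ptr F J ω)))) (Bc (d.Q (d.u (ptr F J ω))))
    (D (d.z (ptr F J ω'), d.u (ptr F J ω))) (px3 F c ω)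
  rw [← h1]
  unfold Pool.PM.lfv Pool.PM.lev Pool.PM.nt Pool.PM.nx shl
  rw [ntc_zero, ntc_one, hT]
  rfl

/-- The deviation from the sheet. -/
theorem dev_shl (d : VDat N φ K F c A) (j : ℕ) (D : d.V × d.U → Fin 4 → ℝ) {ω ω' : F.Ω}
    (hω' : A ω') (hs : slam F ⌊N.w0 * J⌋₊ ω = slam F ⌊N.w0 * J⌋₊ ω') :
    d.lb.dev c ⌊N.w0 * J⌋₊ j (shl d j D) ω ω' = 2 ^ d.gU j *
      |ntc F c d.Q d.u ω j - afv (D (d.z (ptr F J ω'), d.u (ptr F J ω))) (px3 F c ω)| := by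
  have h1 : d.lb.dev c ⌊N.w0 * J⌋₊ j (shl d j D) ω ω' = |nx F c d.Q d.u d.gU ω j -
    lfv F c d.Q d.u d.gU ⌊N.w0 * J⌋₊ (shl d j D (d.z (ptr F J ω')) (d.u (ptr F J ω))) ω| := rfl
  rw [h1, lfv_shl d j D hω' hs]
  unfold Pool.PM.nx
  rw [← mul_sub, abs_mul, abs_of_pos (by positivity : (0 : ℝ) < 2 ^ d.gU j)]

end Pool.HSC
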