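import Pool.Agent.H24.HES.Shv

/-!
# The sheets of the height

`shnS`: the part `ShnS` of a member, from `HesS` and `ConS`.
-/

set_option autoImplicit false

namespace Pool.HSC

open Finset Real MvPolynomial
open Pool.Agent.H49.Ent Pool.Agent.H32.Dense Pool.STK Pool.KA Pool.KSAT Pool.K2S Pool.PB
  Pool.STAT Pool.GEN Pool.M3F Pool.KM7 Pool.S6C Pool.JPN
open Pool.GRW (TmWn)
open Pool.PLN (Nums Dat lpt ConS HesS EzS ex ex_pos ex_add ex_le ex_neg ex_le_one exp_le_ex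
  nms_cls const_le_ex ex_floor mul_ex_le pe_mono grad_const two_le_ex ex_neg_one)
open Pool.PLN.Dat (px_x pA_pos)
open Pool.PM (VNum VDat MNum MDat q2 ShnS)

variable {m : ℕ}

/-- The variables on a leaf. -/
noncomputable def sb (p : PN) : Fin 4 → MvPolynomial (Fin 3) ℝ :=
  ![MvPolynomial.X 0, MvPolynomial.X 1, MvPolynomial.X 2, toF 3 0 p]

section member

variable {J : ℕ} {N : MNum} {φ : ℝ} {K Dg : ℕ} {F : Fam m J} {c : ℕ → Fin m} {A : F.Ω → Prop}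
  (d : MDat N φ K Dg F c A)

/-- The height relative to the chart. -/
noncomputable def Rp (v : d.V × d.U) : PN :=
  C ((2 : ℝ) ^ ⌊N.sN * J⌋₊) * d.P v.1 4 - d.Q v.2 4

theorem vars_Rp (v : d.V × d.U) : (Rp d v).vars ⊆ range 4 := by
  unfold Rp
  refine Finset.Subset.trans (vars_sub_subset (p := C ((2 : ℝ) ^ ⌊N.sN * J⌋₊) * d.P v.1 4)
    (q := d.Q v.2 4)) (union_subset (Finset.Subset.trans (vars_mul _ _) (union_subset ?_ ?_)) ?_)
  · rw [vars_C]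
    exact empty_subset _
  · exact d.lab3.tri _ 4
  · exact d.tri _ 4

/-- The height on the leaf, relative to the chart. -/
noncomputable def Gn (v : d.V × d.U) : MvPolynomial (Fin 3) ℝ :=
  bind₁ (sb (d.P v.1 3)) (toF 4 0 (Rp d v))

theorem deg_Gn {K' : ℕ} (hK : max K 1 * max K 1 ≤ K') (v : d.V × d.U) :
    (Gn d v).totalDegree ≤ K' := by
  have h1 : (Rp d v).totalDegree ≤ max K 1 := by
    unfold Rp
    refine (totalDegree_sub _ _).trans (max_le ?_ ((d.aff _ _).trans (le_max_right _ _)))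
    refine (totalDegree_mul _ _).trans ?_
    rw [totalDegree_C, zero_add]
    exact (d.lab3.deg _ _).trans (le_max_left _ _)
  have h2 : ∀ i, (sb (d.P v.1 3) i).totalDegree ≤ max K 1 := by
    intro i
    have hX : ∀ j : Fin 3, (MvPolynomial.X j : MvPolynomial (Fin 3) ℝ).totalDegree ≤ max K 1 :=
      fun j => (totalDegree_X _).le.trans (le_max_right _ _)
    fin_cases i
    · exact hX 0
    · exact hX 1
    · exact hX 2
    · exact (deg_toF _).trans ((d.lab.deg _ _).trans (le_max_left _ _))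
  unfold Gn
  refine (Pool.KS3.SML.totalDegree_bind_le _ (max K 1) h2 _).trans ?_
  refine le_trans ?_ hK
  exact Nat.mul_le_mul le_rfl ((deg_toF _).trans h1)

/-- The point of the leaf. -/
noncomputable def lfp (P : PN) (b : ℕ → ℝ) : ℕ → ℝ := Function.update b 3 (eval b P)

theorem eval_Gn (v : d.V × d.U) (b : ℕ → ℝ) : eval (fun i : Fin 3 => b i) (Gn d v) =
    eval (lfp (d.P v.1 3) b) (Rp d v) := by
  rw [← ev_toF (vars_Rp d v)]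
  unfold Gn
  have h1 : eval (fun i : Fin 3 => b i) (bind₁ (sb (d.P v.1 3)) (toF 4 0 (Rp d v))) =
      eval (fun i => eval (fun i : Fin 3 => b i) (sb (d.P v.1 3) i)) (toF 4 0 (Rp d v)) := by
    unfold MvPolynomial.eval
    rw [MvPolynomial.eval₂Hom_bind₁]
  rw [h1]
  congr 2
  funext i
  unfold lfp
  fin_cases i
  · show eval (fun i : Fin 3 => b i) (MvPolynomial.X 0) = _
    rw [eval_X]
    rfl
  · show eval (fun i : Fin 3 => b i) (MvPolynomial.X 1) = _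
    rw [eval_X]
    rfl
  · show eval (fun i : Fin 3 => b i) (MvPolynomial.X 2) = _
    rw [eval_X]
    rfl
  · show eval (fun i : Fin 3 => b i) (toF 3 0 (d.P v.1 3)) = Function.update b 3 _ 3
    rw [ev_toF (d.lab.tri _ 3), Function.update_self]

theorem eval_Rp (v : d.V × d.U) (b : ℕ → ℝ) : eval b (Rp d v) =
    2 ^ ⌊N.sN * J⌋₊ * eval b (d.P v.1 4) - eval b (d.Q v.2 4) := by
  unfold Rp
  rw [map_sub, map_mul, eval_C]

theorem pd_Rp (v : d.V × d.U) (b : ℕ → ℝ) : eval b (pderiv 3 (Rp d v)) = d.dN v.1 v.2 b := by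
  unfold Rp Pool.PM.MDat.dN
  rw [map_sub, pderiv_C_mul, map_sub, map_mul, eval_C]

/-- The slope of the height on the box. -/
theorem dN_le {ω : F.Ω} (hω : A ω) {b : ℕ → ℝ}
    (hb : CLO.Bxr 4 (wid ⌊N.w1 * J⌋₊ d.gN) (d.P (d.z (ptr F J ω))) 4 b) :
    |d.dN (d.z (ptr F J ω)) (d.u (ptr F J ω)) b| ≤ 2 ^ d.gU 2 / 2 ^ d.gU 3 * d.mo ω := by
  have h1 : BddAbove ((fun b => |d.dN (d.z (ptr F J ω)) (d.u (ptr F J ω)) b|) ''
      {b : ℕ → ℝ | CLO.Bxr 4 (wid ⌊N.w1 * J⌋₊ d.gN) (d.P (d.z (ptr F J ω))) 4 b}) := by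
    refine ⟨2 ^ ⌊N.sN * J⌋₊ * d.L + |eval 0 (pderiv 3 (d.Q (d.u (ptr F J ω)) 4))|, ?_⟩
    rintro x ⟨b, hb, rfl⟩
    show |d.dN (d.z (ptr F J ω)) (d.u (ptr F J ω)) b| ≤ _
    unfold Pool.PM.MDat.dN
    rw [grad_const (d.aff _ 4) 3 b 0]
    refine (abs_sub _ _).trans (add_le_add ?_ le_rfl)
    rw [abs_mul, abs_of_pos (by positivity : (0 : ℝ) < 2 ^ ⌊N.sN * J⌋₊)]
    exact mul_le_mul_of_nonneg_left (d.lab3.grad ω hω b hb 4 le_rfl 3 (by norm_num))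
      (by positivity)
  have h2 := le_csSup h1 ⟨b, hb, rfl⟩
  have h3 : d.mkN (d.z (ptr F J ω)) (d.u (ptr F J ω)) ≤ d.mo ω := le_max_right _ _
  unfold Pool.PM.MDat.mkN at h3
  have p2 : (0 : ℝ) < 2 ^ d.gU 2 := by positivity
  have p3 : (0 : ℝ) < 2 ^ d.gU 3 := by positivity
  refine h2.trans ?_
  have h4 := mul_le_mul_of_nonneg_left h3
    (show (0 : ℝ) ≤ 2 ^ d.gU 2 / 2 ^ d.gU 3 by positivity)
  refine le_trans (le_of_eq ?_) h4
  field_simp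

theorem wid_gN {i : ℕ} (hi : i ≤ 3) : wid ⌊N.w1 * J⌋₊ d.gN i = wid ⌊N.w1 * J⌋₊ d.g' i := by
  unfold wid
  split_ifs with h
  · rfl
  · exact d.gN_eq (i - 1) (by omega)

/-- Points of the box over a point of the smaller box. -/
theorem box_up {κ : d.V} {b : ℕ → ℝ} (hb : CLO.Bxr 2 (wid ⌊N.w1 * J⌋₊ d.g') (d.P κ) 3 b) {v : ℝ}
    (hv : |v - eval b (d.P κ 3)| ≤ 4 / 2 ^ d.g' 2) :
    CLO.Bxr 4 (wid ⌊N.w1 * J⌋₊ d.gN) (d.P κ) 4 (Function.update b 3 v) := by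
  intro i hi
  rw [wid_gN d (by omega)]
  have h1 : eval (Function.update b 3 v) (d.P κ i) = eval b (d.P κ i) := by
    refine Pool.SYS35.eval_congr (n := 3) ((d.lab.tri κ i).trans (Finset.range_mono (by omega)))
      fun l hl => ?_
    exact Function.update_of_ne (by omega) _ _
  rw [h1]
  rcases Nat.lt_or_ge i 3 with h2 | h2
  · rw [Function.update_of_ne (by omega)]
    refine (hb i h2).trans ?_
    exact div_le_div_of_nonneg_right (by norm_num) (by positivity)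
  · have h3 : i = 3 := by omega
    subst h3
    rw [Function.update_self]
    exact hv

/-- The height moves little along the fibre. -/
theorem fib_le {ω : F.Ω} (hω : A ω) {b : ℕ → ℝ}
    (hb : CLO.Bxr 2 (wid ⌊N.w1 * J⌋₊ d.g') (d.P (d.z (ptr F J ω))) 3 b) {x : ℝ}
    (h3 : |b 3 - eval b (d.P (d.z (ptr F J ω)) 3)| ≤ x) (hx : x ≤ 4 / 2 ^ d.g' 2) :
    |eval b (Rp d (d.z (ptr F J ω), d.u (ptr F J ω))) -
      eval (lfp (d.P (d.z (ptr F J ω)) 3) b) (Rp d (d.z (ptr F J ω), d.u (ptr F J ω)))| ≤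
      2 ^ d.gU 2 / 2 ^ d.gU 3 * d.mo ω * x := by
  have hmo : 0 ≤ d.mo ω := zero_le_one.trans (le_max_left _ _)
  have h1 := Pool.PLA.mv_upd (Rp d (d.z (ptr F J ω), d.u (ptr F J ω))) b 3
    (x := eval b (d.P (d.z (ptr F J ω)) 3)) (x' := b 3)
    (L := 2 ^ d.gU 2 / 2 ^ d.gU 3 * d.mo ω) (by
      intro u hu
      rw [pd_Rp]
      refine dN_le d hω (box_up d hb (le_trans ?_ (h3.trans hx)))
      have h4 := Set.abs_sub_left_of_mem_uIcc hu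
      exact h4)
  rw [Function.update_eq_self] at h1
  refine h1.trans (mul_le_mul_of_nonneg_left h3 (by positivity))

/-- The sample and its label, rounded. -/
theorem pxn {ω : F.Ω} (hω : A ω) :
    |px c (ptr F J ω) 4 - 2 ^ ⌊N.sN * J⌋₊ * eval (px c (ptr F J ω)) (d.P (d.z (ptr F J ω)) 4)| ≤
      2 ^ ⌊N.sN * J⌋₊ * (1 / 2 ^ d.gN 3 + 1 / 2 ^ J) := by
  have h1 := d.lab3.posN ω hω
  have p2 : (0 : ℝ) < 2 ^ ⌊N.sN * J⌋₊ := by positivity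
  have e1 : px c (ptr F J ω) 4 -
      2 ^ ⌊N.sN * J⌋₊ * eval (px c (ptr F J ω)) (d.P (d.z (ptr F J ω)) 4) =
      2 ^ ⌊N.sN * J⌋₊ * (px c (ptr F J ω) (3 + 1) / 2 ^ ⌊N.sN * J⌋₊ -
        eval (px c (ptr F J ω)) (d.P (d.z (ptr F J ω)) (3 + 1))) := by
    field_simp
  rw [e1, abs_mul, abs_of_pos p2]
  exact mul_le_mul_of_nonneg_left h1 p2.le

/-- The third coordinate, rounded. -/
theorem px_three {ω : F.Ω} (hω : A ω) : |px c (ptr F J ω) 3 -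
    eval (px c (ptr F J ω)) (d.P (d.z (ptr F J ω)) 3)| ≤ 1 / 2 ^ d.g' 2 := by
  have h1 := d.lab3.pos ω hω 2 (by norm_num)
  rwa [d.gN_eq 2 (by norm_num)] at h1

/-- The sample and its label, exact. -/
theorem exn (nm : d.toDat.Nms) (hL6 : (2 + 6 * d.L) * (1 / 2 ^ J) ≤ 1 / 2 ^ d.g' 2) {ω : F.Ω}
    (hω : A ω) :
    |F.x ω (c 3) - 2 ^ ⌊N.sN * J⌋₊ * eval (xt F c ω) (d.P (d.z (ptr F J ω)) 4)| ≤
      2 ^ ⌊N.sN * J⌋₊ * (1 / 2 ^ d.gN 3 + (2 + 4 * d.L) * (1 / 2 ^ J)) := by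
  have p2 : (1 : ℝ) ≤ 2 ^ ⌊N.sN * J⌋₊ := one_le_pow₀ one_le_two
  have pJ : (0 : ℝ) < 1 / 2 ^ J := by positivity
  have hL := d.L0
  have h1 := pxn d hω
  have h2 := px_x (F := F) c ω 3
  have h3 : |eval (xt F c ω) (d.P (d.z (ptr F J ω)) 4) -
      eval (px c (ptr F J ω)) (d.P (d.z (ptr F J ω)) 4)| ≤ (4 : ℕ) * d.L * (1 / 2 ^ J) := by
    refine pn_mvn (d.lab3.tri _ 4) (fun l _ => xt_px F c ω l) hL fun t ht l hl => ?_
    obtain ⟨b, hb⟩ : ∃ b : ℕ → ℝ, b = fun i => px c (ptr F J ω) i +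
      t * (xt F c ω i - px c (ptr F J ω) i) := ⟨_, rfl⟩
    rw [← hb]
    have hn : ∀ l, |b l - px c (ptr F J ω) l| ≤ 1 / 2 ^ J := by
      intro l
      rw [hb]
      show |px c (ptr F J ω) l + t * (xt F c ω l - px c (ptr F J ω) l) - px c (ptr F J ω) l| ≤ _
      rw [add_sub_cancel_left, abs_mul, abs_of_nonneg ht.1]
      calc t * |xt F c ω l - px c (ptr F J ω) l| ≤ 1 * (1 / 2 ^ J) :=
            mul_le_mul ht.2 (xt_px F c ω l) (abs_nonneg _) zero_le_one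
        _ = _ := one_mul _
    have h4 := d.toDat.bx_near nm hω (b := b) (fun l _ => (hn l).trans (by
      rw [div_le_div_iff_of_pos_right (by positivity)]
      norm_num))
    have h5 : |b 3 - eval b (d.P (d.z (ptr F J ω)) 3)| ≤ 4 / 2 ^ d.g' 2 := by
      have e1 : b 3 - eval b (d.P (d.z (ptr F J ω)) 3) = (b 3 - px c (ptr F J ω) 3) +
        (px c (ptr F J ω) 3 - eval (px c (ptr F J ω)) (d.P (d.z (ptr F J ω)) 3)) -
        (eval b (d.P (d.z (ptr F J ω)) 3) -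
          eval (px c (ptr F J ω)) (d.P (d.z (ptr F J ω)) 3)) := by ring
      rw [e1]
      refine (abs_sub _ _).trans ((add_le_add ((abs_add_le _ _).trans (add_le_add (hn 3)
        (px_three d hω))) h4.2).trans ?_)
      have e2 : 1 / (2 : ℝ) ^ J + 1 / 2 ^ d.g' 2 + 3 * d.L * (2 / 2 ^ J) =
          (1 + 6 * d.L) * (1 / 2 ^ J) + 1 / 2 ^ d.g' 2 := by ring
      rw [e2]
      have e3 : (4 : ℝ) / 2 ^ d.g' 2 = 4 * (1 / 2 ^ d.g' 2) := by ring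
      rw [e3]
      have h6 : (1 + 6 * d.L) * (1 / 2 ^ J) ≤ (2 + 6 * d.L) * (1 / 2 ^ J) :=
        mul_le_mul_of_nonneg_right (by linarith) pJ.le
      have h7 : (0 : ℝ) < 1 / 2 ^ d.g' 2 := by positivity
      linarith
    have h6 := box_up d h4.1 h5
    rw [Function.update_eq_self] at h6
    exact d.lab3.grad ω hω b h6 4 le_rfl l hl
  have e1 : F.x ω (c 3) - 2 ^ ⌊N.sN * J⌋₊ * eval (xt F c ω) (d.P (d.z (ptr F J ω)) 4) =
      (px c (ptr F J ω) 4 - 2 ^ ⌊N.sN * J⌋₊ *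
        eval (px c (ptr F J ω)) (d.P (d.z (ptr F J ω)) 4)) -
      (px c (ptr F J ω) (3 + 1) - F.x ω (c 3)) -
      2 ^ ⌊N.sN * J⌋₊ * (eval (xt F c ω) (d.P (d.z (ptr F J ω)) 4) -
        eval (px c (ptr F J ω)) (d.P (d.z (ptr F J ω)) 4)) := by ring
  rw [e1]
  have h4 : |2 ^ ⌊N.sN * J⌋₊ * (eval (xt F c ω) (d.P (d.z (ptr F J ω)) 4) -
      eval (px c (ptr F J ω)) (d.P (d.z (ptr F J ω)) 4))| ≤
      2 ^ ⌊N.sN * J⌋₊ * ((4 : ℕ) * d.L * (1 / 2 ^ J)) := by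
    rw [abs_mul, abs_of_pos (by positivity : (0 : ℝ) < 2 ^ ⌊N.sN * J⌋₊)]
    exact mul_le_mul_of_nonneg_left h3 (by positivity)
  refine (abs_sub _ _).trans ((add_le_add ((abs_sub _ _).trans (add_le_add h1 h2)) h4).trans ?_)
  have h5 : 1 / (2 : ℝ) ^ J ≤ 2 ^ ⌊N.sN * J⌋₊ * (1 / 2 ^ J) := le_mul_of_one_le_left pJ.le p2
  have e2 : (2 : ℝ) ^ ⌊N.sN * J⌋₊ * (((4 : ℕ) : ℝ) * d.L * (1 / 2 ^ J)) =
      4 * d.L * (2 ^ ⌊N.sN * J⌋₊ * (1 / 2 ^ J)) := by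
    push_cast
    ring
  rw [e2]
  nlinarith

/-- The third coordinate, exact. -/
theorem ex_three (nm : d.toDat.Nms) (hL6 : (2 + 6 * d.L) * (1 / 2 ^ J) ≤ 1 / 2 ^ d.g' 2) {ω : F.Ω}
    (hω : A ω) : |xt F c ω 3 - eval (xt F c ω) (d.P (d.z (ptr F J ω)) 3)| ≤ 2 / 2 ^ d.g' 2 := by
  have h1 := exv d.toVDat nm hω
  have e1 : d.sg = 0 := d.sg_eq
  rw [e1, pow_zero, one_mul, one_mul] at h1
  have e2 : xt F c ω 3 = F.x ω (c 2) := xt_succ F c ω 2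
  rw [e2]
  refine h1.trans ?_
  have e3 : (2 : ℝ) / 2 ^ d.g' 2 = 1 / 2 ^ d.g' 2 + 1 / 2 ^ d.g' 2 := by ring
  rw [e3]
  linarith

/-- The precision of the height on the leaf. -/
noncomputable def εn (μ : ℝ) : ℝ :=
  2 ^ ⌊N.sN * J⌋₊ * (1 / 2 ^ d.gN 3 + (2 + 4 * d.L) * (1 / 2 ^ J)) +
    2 ^ d.gU 2 / 2 ^ d.gU 3 * (μ * Real.exp (φ * J)) * (2 / 2 ^ d.g' 2)

theorem hex_n (nm : d.toDat.Nms) (hL6 : (2 + 6 * d.L) * (1 / 2 ^ J) ≤ 1 / 2 ^ d.g' 2) {μ : ℝ}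
    {ω : F.Ω} (hω : A ω) (hμ : d.mo ω ≤ μ * Real.exp (φ * J)) :
    |Ul c d.Q d.u' 3 (slam F ⌊N.w0 * J⌋₊ ω) + F.t ω * Vl c d.Q d.u' 3 (slam F ⌊N.w0 * J⌋₊ ω) -
      eval (lpt F c ω (F.t ω)) (Gn d (d.z (ptr F J ω), d.u (ptr F J ω)))| ≤ εn d μ := by
  rw [ul_vl d.toVDat 3 hω, lpt_xt, eval_Gn]
  have h1 := exn d nm hL6 hω
  have hbx := (d.toDat.bx_near nm hω (b := xt F c ω) (fun l _ => (xt_px F c ω l).trans (by
    rw [div_le_div_iff_of_pos_right (by positivity)]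
    norm_num))).1
  have h2 := fib_le d hω hbx (ex_three d nm hL6 hω)
    (div_le_div_of_nonneg_right (by norm_num) (by positivity))
  have e0 := eval_Rp d (d.z (ptr F J ω), d.u (ptr F J ω)) (xt F c ω)
  simp only at e0
  have e1 : F.x ω (c 3) - eval (xt F c ω) (d.Q (d.u (ptr F J ω)) (3 + 1)) -
      eval (lfp (d.P (d.z (ptr F J ω)) 3) (xt F c ω))
        (Rp d (d.z (ptr F J ω), d.u (ptr F J ω))) =
      (F.x ω (c 3) - 2 ^ ⌊N.sN * J⌋₊ * eval (xt F c ω) (d.P (d.z (ptr F J ω)) 4)) +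
      (eval (xt F c ω) (Rp d (d.z (ptr F J ω), d.u (ptr F J ω))) -
        eval (lfp (d.P (d.z (ptr F J ω)) 3) (xt F c ω))
          (Rp d (d.z (ptr F J ω), d.u (ptr F J ω)))) := by
    rw [e0]
    ring
  rw [e1]
  refine (abs_add_le _ _).trans (add_le_add h1 (h2.trans ?_))
  exact mul_le_mul_of_nonneg_right (mul_le_mul_of_nonneg_left hμ (by positivity)) (by positivity)

theorem hpx_n (nm : d.toDat.Nms) {μ : ℝ} {ω : F.Ω} (hω : A ω)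
    (hμ : d.mo ω ≤ μ * Real.exp (φ * J)) :
    |ntc F c d.Q d.u ω 3 - eval (px3 F c ω) (Gn d (d.z (ptr F J ω), d.u (ptr F J ω)))| ≤
      εn d μ := by
  have hL := d.L0
  have hmo : 0 ≤ d.mo ω := zero_le_one.trans (le_max_left _ _)
  have e0 : eval (px3 F c ω) (Gn d (d.z (ptr F J ω), d.u (ptr F J ω))) = _ :=
    eval_Gn d (d.z (ptr F J ω), d.u (ptr F J ω)) (px c (ptr F J ω))
  rw [e0]
  have h1 := pxn d hω
  have hbx := (d.toDat.pos_bx nm hω).mono (show (1 : ℝ) ≤ 2 by norm_num) le_rfl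
  have h2 := fib_le d hω hbx (px_three d hω)
    (div_le_div_of_nonneg_right (by norm_num) (by positivity))
  have e5 := eval_Rp d (d.z (ptr F J ω), d.u (ptr F J ω)) (px c (ptr F J ω))
  simp only at e5
  have e1 : ntc F c d.Q d.u ω 3 - eval (lfp (d.P (d.z (ptr F J ω)) 3) (px c (ptr F J ω)))
        (Rp d (d.z (ptr F J ω), d.u (ptr F J ω))) =
      (px c (ptr F J ω) 4 - 2 ^ ⌊N.sN * J⌋₊ *
        eval (px c (ptr F J ω)) (d.P (d.z (ptr F J ω)) 4)) +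
      (eval (px c (ptr F J ω)) (Rp d (d.z (ptr F J ω), d.u (ptr F J ω))) -
        eval (lfp (d.P (d.z (ptr F J ω)) 3) (px c (ptr F J ω)))
          (Rp d (d.z (ptr F J ω), d.u (ptr F J ω)))) := by
    rw [e5]
    unfold Pool.JPN.ntc
    ring
  rw [e1]
  refine (abs_add_le _ _).trans (add_le_add (h1.trans ?_) (h2.trans ?_))
  · refine mul_le_mul_of_nonneg_left ?_ (by positivity)
    have h5 : 1 * (1 / (2 : ℝ) ^ J) ≤ (2 + 4 * d.L) * (1 / 2 ^ J) :=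
      mul_le_mul_of_nonneg_right (by linarith) (by positivity)
    linarith
  · refine mul_le_mul (mul_le_mul_of_nonneg_left hμ (by positivity))
      (div_le_div_of_nonneg_right (by norm_num) (by positivity)) (by positivity) ?_
    exact mul_nonneg (by positivity) (hmo.trans hμ)

/-! ### The numbers -/

theorem t1_n (hsN : 0 ≤ N.sN) (hL1 : 1 + d.L ≤ ex (-(2 * φ)) J) :
    2 ^ d.gU 3 * (2 ^ ⌊N.sN * J⌋₊ * (1 / 2 ^ d.gN 3 + (2 + 4 * d.L) * (1 / 2 ^ J))) ≤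
      4 * (ex (-(2 * φ)) J * ex (N.P1 - N.β 3 - 2 * φ) J) := by
  have hL := d.L0
  have hJ0 : (0 : ℝ) ≤ J := Nat.cast_nonneg J
  have a1 : (1 : ℝ) / 2 ^ J ≤ 1 / 2 ^ d.gN 3 :=
    one_div_le_one_div_of_le (by positivity) (pow_le_pow_right₀ one_le_two d.topN)
  have p2 := ex_pos (-(2 * φ)) J
  have b1 := (abs_le.1 d.numUN).2
  have b2 := (abs_le.1 d.numN).1
  have b3 : (⌊N.sN * J⌋₊ : ℝ) ≤ N.sN * J := Nat.floor_le (mul_nonneg hsN hJ0)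
  have h3 : (1 : ℝ) / 2 ^ d.gN 3 + (2 + 4 * d.L) * (1 / 2 ^ J) ≤
      (1 / 2 ^ d.gN 3) * (4 * ex (-(2 * φ)) J) := by
    have h2 : (2 + 4 * d.L) * (1 / 2 ^ J) ≤ (2 + 4 * d.L) * (1 / 2 ^ d.gN 3) :=
      mul_le_mul_of_nonneg_left a1 (by linarith)
    have h4 : (1 : ℝ) / 2 ^ d.gN 3 + (2 + 4 * d.L) * (1 / 2 ^ d.gN 3) =
        (1 / 2 ^ d.gN 3) * (3 + 4 * d.L) := by ring
    have h5 : (1 / (2 : ℝ) ^ d.gN 3) * (3 + 4 * d.L) ≤
        (1 / 2 ^ d.gN 3) * (4 * ex (-(2 * φ)) J) :=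
      mul_le_mul_of_nonneg_left (by linarith) (by positivity)
    linarith
  have h4 : (2 : ℝ) ^ (d.gU 3 + ⌊N.sN * J⌋₊) / 2 ^ d.gN 3 ≤
      ex (-(-(N.P1 - N.β 3 - 2 * φ))) J := by
    refine quo_two ?_
    have e1 : N.P1 = N.gN - N.sN := rfl
    push_cast
    rw [e1]
    linarith
  rw [neg_neg] at h4
  calc 2 ^ d.gU 3 * (2 ^ ⌊N.sN * J⌋₊ * (1 / 2 ^ d.gN 3 + (2 + 4 * d.L) * (1 / 2 ^ J))) ≤
        2 ^ d.gU 3 * (2 ^ ⌊N.sN * J⌋₊ * ((1 / 2 ^ d.gN 3) * (4 * ex (-(2 * φ)) J))) :=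
        mul_le_mul_of_nonneg_left (mul_le_mul_of_nonneg_left h3 (by positivity))
          (by positivity)
    _ = 4 * (ex (-(2 * φ)) J * ((2 : ℝ) ^ (d.gU 3 + ⌊N.sN * J⌋₊) / 2 ^ d.gN 3)) := by
        rw [pow_add]
        ring
    _ ≤ _ := mul_le_mul_of_nonneg_left (mul_le_mul_of_nonneg_left h4 p2.le) (by norm_num)

theorem t2_n (hφ : 0 < φ) {μ : ℝ} (hμ : 0 < μ) :
    2 ^ d.gU 3 * (2 ^ d.gU 2 / 2 ^ d.gU 3 * (μ * Real.exp (φ * J)) * (2 / 2 ^ d.g' 2)) ≤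
      2 * μ * (ex (-(2 * φ)) J * ex (N.fall - 3 * φ) J) := by
  have b4 := (abs_le.1 (d.numU 2 (by norm_num))).2
  have b5 := (abs_le.1 (d.num 2 le_rfl)).1
  have b6 := (abs_le.1 d.nums).2
  have b7 : (d.sg : ℝ) = 0 := by
    rw [d.sg_eq]
    exact Nat.cast_zero
  rw [b7] at b6
  have p2 := ex_pos (-(2 * φ)) J
  have h4 : (2 : ℝ) ^ d.gU 2 / 2 ^ d.g' 2 ≤ ex (-(-(N.fall - 3 * φ))) J := by
    refine quo_two ?_
    have e1 : N.fall = N.g 2 - N.s - N.β 2 := rfl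
    rw [e1]
    linarith
  rw [neg_neg] at h4
  have h5 := exp_le_ex hφ.le J
  have e1 : 2 ^ d.gU 3 * (2 ^ d.gU 2 / 2 ^ d.gU 3 * (μ * Real.exp (φ * J)) *
      (2 / 2 ^ d.g' 2)) = 2 * μ * (Real.exp (φ * J) * (2 ^ d.gU 2 / 2 ^ d.g' 2)) := by
    field_simp
  rw [e1]
  exact mul_le_mul_of_nonneg_left (mul_le_mul h5 h4 (by positivity) p2.le) (by positivity)

/-- The loss of the sheets. -/
theorem num_n (hsN : 0 ≤ N.sN) (hφ : 0 < φ) (hL1 : 1 + d.L ≤ ex (-(2 * φ)) J) {μ e' b : ℝ}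
    (hμ : 0 < μ) (hJ : 128 ≤ ex (-(b - (e' + 5 * φ))) J) (hbf : b ≤ N.fall)
    (hbP : b ≤ N.P1 - N.β 3) : 32 * (2 ^ d.gU 3 * (ex (-e') J * εn d μ)) ≤
      1 / 2 ^ ⌊(N.P1 - N.β 3 - b) * J⌋₊ + μ / 2 ^ ⌊(N.fall - b) * J⌋₊ := by
  have t3 : 2 ^ d.gU 3 * εn d μ ≤ 4 * (ex (-(2 * φ)) J * ex (N.P1 - N.β 3 - 2 * φ) J) +
      2 * μ * (ex (-(2 * φ)) J * ex (N.fall - 3 * φ) J) := by
    unfold εn
    rw [mul_add]
    exact add_le_add (t1_n d hsN hL1) (t2_n d hφ hμ)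
  have c1 : 128 * (ex (-e') J * (ex (-(2 * φ)) J * ex (N.P1 - N.β 3 - 2 * φ) J)) ≤
      1 / 2 ^ ⌊(N.P1 - N.β 3 - b) * J⌋₊ := by
    have e1 : ex (-e') J * (ex (-(2 * φ)) J * ex (N.P1 - N.β 3 - 2 * φ) J) =
        ex (N.P1 - N.β 3 - e' - 4 * φ) J := by
      rw [← ex_add, ← ex_add]
      congr 1
      ring
    rw [e1]
    refine le_trans (mul_ex_le (y := N.P1 - N.β 3 - b) (hJ.trans (ex_le ?_ J)))
      (ex_floor (by linarith) J)
    linarith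
  have c2 : 64 * (ex (-e') J * (ex (-(2 * φ)) J * ex (N.fall - 3 * φ) J)) ≤
      1 / 2 ^ ⌊(N.fall - b) * J⌋₊ := by
    have e1 : ex (-e') J * (ex (-(2 * φ)) J * ex (N.fall - 3 * φ) J) =
        ex (N.fall - e' - 5 * φ) J := by
      rw [← ex_add, ← ex_add]
      congr 1
      ring
    rw [e1]
    have h3 : 64 * ex (N.fall - e' - 5 * φ) J ≤ 128 * ex (N.fall - e' - 5 * φ) J :=
      mul_le_mul_of_nonneg_right (by norm_num) (ex_pos _ _).le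
    refine h3.trans (le_trans (mul_ex_le (y := N.fall - b) (hJ.trans (ex_le ?_ J)))
      (ex_floor (by linarith) J))
    linarith
  have h6 : ex (-e') J * (2 ^ d.gU 3 * εn d μ) ≤
      4 * (ex (-e') J * (ex (-(2 * φ)) J * ex (N.P1 - N.β 3 - 2 * φ) J)) +
      2 * μ * (ex (-e') J * (ex (-(2 * φ)) J * ex (N.fall - 3 * φ) J)) :=
    (mul_le_mul_of_nonneg_left t3 (ex_pos (-e') J).le).trans (le_of_eq (by ring))
  have h7 := mul_le_mul_of_nonneg_left c2 hμ.le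
  have e5 : 32 * (2 ^ d.gU 3 * (ex (-e') J * εn d μ)) =
      32 * (ex (-e') J * (2 ^ d.gU 3 * εn d μ)) := by ring
  have e6 : μ * (1 / 2 ^ ⌊(N.fall - b) * J⌋₊) = μ / 2 ^ ⌊(N.fall - b) * J⌋₊ := by ring
  have e7 : μ * (64 * (ex (-e') J * (ex (-(2 * φ)) J * ex (N.fall - 3 * φ) J))) =
      32 * (2 * μ * (ex (-e') J * (ex (-(2 * φ)) J * ex (N.fall - 3 * φ) J))) := by ring
  rw [e6, e7] at h7
  rw [e5]
  linarith

/-- Gradients and digits. -/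
theorem l6_n (hL1 : 1 + d.L ≤ ex (-(2 * φ)) J)
    (hJ : 6 ≤ ex (-(1 - (N.g 2 + 3 * φ))) J) :
    (2 + 6 * d.L) * (1 / 2 ^ J) ≤ 1 / 2 ^ d.g' 2 := by
  have hL := d.L0
  rw [mul_one_div, div_le_div_iff₀ (by positivity) (by positivity), one_mul]
  have b2 := (abs_le.1 (d.num 2 le_rfl)).2
  have h3 : (2 : ℝ) ^ d.g' 2 ≤ ex (-(N.g 2 + φ)) J := two_le_ex (by linarith)
  have p2 := ex_pos (-(2 * φ)) J
  have h4 : (2 + 6 * d.L) * 2 ^ d.g' 2 ≤ (6 * ex (-(2 * φ)) J) * ex (-(N.g 2 + φ)) J :=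
    mul_le_mul (by linarith) h3 (by positivity) (by positivity)
  have e1 : (6 * ex (-(2 * φ)) J) * ex (-(N.g 2 + φ)) J = 6 * ex (-(N.g 2 + 3 * φ)) J := by
    rw [mul_assoc, ← ex_add]
    congr 2
    ring
  rw [e1] at h4
  refine h4.trans ?_
  rw [← ex_neg_one J]
  refine mul_ex_le (hJ.trans (ex_le ?_ J))
  linarith

/-- The sheet zero. -/
theorem dev_zero {ω : F.Ω} (hω : A ω) (ω' : F.Ω) :
    d.lb.dev c ⌊N.w0 * J⌋₊ 3 (fun _ _ _ => 0) ω ω' ≤ 1 := by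
  have e1 : d.lb.dev c ⌊N.w0 * J⌋₊ 3 (fun _ _ _ => 0) ω ω' =
      2 ^ d.gU 3 * |ntc F c d.Q d.u ω 3| := by
    have e2 : d.lb.dev c ⌊N.w0 * J⌋₊ 3 (fun _ _ _ => 0) ω ω' =
      |2 ^ d.gU 3 * ntc F c d.Q d.u ω 3 - Pool.PM.lev (fun _ => 0)
        (Pool.PM.nt F ⌊N.w0 * J⌋₊ ω) (Pool.PM.nx F c d.Q d.u d.gU ω 0)
        (Pool.PM.nx F c d.Q d.u d.gU ω 1)| := rfl
    rw [e2]
    unfold Pool.PM.lev
    rw [zero_mul, zero_mul, zero_mul, add_zero, add_zero, add_zero, sub_zero, abs_mul,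
      abs_of_pos (by positivity : (0 : ℝ) < 2 ^ d.gU 3)]
  rw [e1]
  calc 2 ^ d.gU 3 * |ntc F c d.Q d.u ω 3| ≤ 2 ^ d.gU 3 * (1 / 2 ^ d.gU 3) :=
        mul_le_mul_of_nonneg_left (d.posN ω hω) (by positivity)
    _ = 1 := by field_simp

/-- The size is not small. -/
theorem mu_low (hφ : 0 < φ) (hA : ∃ ω, A ω) {μ : ℝ} (hμ : ∀ ω, A ω → d.mo ω ≤ μ *
    Real.exp (φ * J)) : ex (2 * φ) J ≤ μ := by
  obtain ⟨ω, hω⟩ := hA
  have h3 : 1 ≤ μ * Real.exp (φ * J) := (le_max_left _ _).trans (hμ ω hω)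
  have h4 := exp_le_ex hφ.le J
  have h5 : 0 < μ := by
    by_contra h6
    push Not at h6
    have h7 : μ * Real.exp (φ * J) ≤ 0 := mul_nonpos_of_nonpos_of_nonneg h6 (Real.exp_pos _).le
    linarith
  have h6 : 1 ≤ μ * ex (-(2 * φ)) J := h3.trans (mul_le_mul_of_nonneg_left h4 h5.le)
  have h7 := ex_pos (2 * φ) J
  have e1 : ex (2 * φ) J * ex (-(2 * φ)) J = 1 := by
    rw [← ex_add, add_neg_cancel, Pool.PLN.ex_zero]
  have h8 := mul_le_mul_of_nonneg_left h6 h7.le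
  have e2 : ex (2 * φ) J * (μ * ex (-(2 * φ)) J) = μ * (ex (2 * φ) J * ex (-(2 * φ)) J) := by ring
  rw [e2, e1, mul_one, mul_one] at h8
  exact h8

end member

/-- **The sheets of the height.** -/
theorem shnS {S : PCl m}
    (hpos : ∀ (τ : ℝ) (J : ℕ) (F : Fam m J) (A : F.Ω → Prop), S.St τ J F A → 0 < Pe F.p A)
    {c : ℕ → Fin m} {N : MNum} {K Dg K' : ℕ} {h e' b : ℝ} (htw : TmWn S N.w0)
    (hez : ∀ b c₁ : ℝ, 0 < b → 0 < c₁ → EzS S c N.toNums K b c₁) (h0 : 0 ≤ N.w0)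
    (h01 : N.w0 ≤ N.w1)
    (h1 : N.w1 < 1) (hg0 : N.g 0 < 1) (hg1 : N.g 1 < 1) (hg2 : N.g 2 < 1) (hh : 0 < h)
    (hb : 2 * h < b) (he : 0 < e') (heb : e' < b) (hbf : b ≤ N.fall) (hbP : b ≤ N.P1 - N.β 3)
    (hsN : 0 ≤ N.sN) (hβ0 : N.w0 ≤ N.β 0) (hβ1 : N.g0 1 ≤ N.β 1) (hw : N.w0 + N.fall ≤ 1)
    (hg : N.g0 1 + N.fall ≤ 1) (hK : max K 1 * max K 1 ≤ K')
    (hcon : ∀ c₁ : ℝ, 0 < c₁ → ConS S c N.toNums K h c₁)
    (hhes : ∀ c₁ : ℝ, 0 < c₁ → HesS S c N.toNums N.toNums K K K' e' c₁) {c₀ : ℝ} (hc : 0 < c₀) :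
    ShnS S c N K Dg b c₀ := by
  classical
  obtain ⟨φd, hφd, J₁, hnms⟩ := nms_cls (N := N.toNums) h0 h01 h1 hg0 hg1
  obtain ⟨φ₁, hφ₁⟩ : ∃ φ₁ : ℝ, φ₁ = min φd (min ((b - e') / 10) ((1 - N.g 2) / 6)) := ⟨_, rfl⟩
  have hφ₁0 : 0 < φ₁ := by
    rw [hφ₁]
    exact lt_min hφd (lt_min (by linarith) (by linarith))
  obtain ⟨φ, hφ, hφφ, hB⟩ := sh_cls hpos htw hez h0 h01 h1 hg0 hg1 hh hb he hbf hβ0 hβ1 hw hg hcon hhes hc
    hφ₁0
  have ud : φ ≤ φd := hφφ.trans (by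
    rw [hφ₁]
    exact min_le_left _ _)
  have ue : φ ≤ (b - e') / 10 := hφφ.trans (by
    rw [hφ₁]
    exact (min_le_right _ _).trans (min_le_left _ _))
  have uf : φ ≤ (1 - N.g 2) / 6 := hφφ.trans (by
    rw [hφ₁]
    exact (min_le_right _ _).trans (min_le_right _ _))
  obtain ⟨J₂, hJ₂⟩ := const_le_ex 128 (b := b - (e' + 5 * φ)) (by linarith)
  obtain ⟨J₃, hJ₃⟩ := const_le_ex 6 (b := 1 - (N.g 2 + 3 * φ)) (by linarith)
  refine ⟨φ, hφ, (hB.and (⟨1, one_pos, 0, fun J _ F A hA => hpos 1 J F A hA⟩ :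
    Bas S (fun _ F A => 0 < Pe F.p A))).mono (max J₁ (max J₂ J₃)) ?_⟩
  rintro J hJ F A ⟨hF, hPA⟩ d μ hμ
  have j1 : J ≥ J₁ := (le_max_left _ _).trans hJ
  have j2 : J ≥ J₂ := ((le_max_left _ _).trans (le_max_right _ _)).trans hJ
  have j3 : J ≥ J₃ := ((le_max_right _ _).trans (le_max_right _ _)).trans hJ
  have hJ0 : (0 : ℝ) ≤ J := Nat.cast_nonneg J
  have nm := hnms φ hφ ud J j1 d.toDat
  have hL := d.L0
  have hlaw := isLaw_cond F.isLaw hPA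
  have hL1 : 1 + d.L ≤ ex (-(2 * φ)) J := by
    refine le_trans ?_ (exp_le_ex hφ.le J)
    rw [← Real.log_le_iff_le_exp (by linarith)]
    exact d.L1
  -- the size of the slopes
  have hA : ∃ ω, A ω := by
    by_contra hcon2
    push Not at hcon2
    have h3 : Pe F.p A = 0 := by
      rw [Pe_eq]
      exact Finset.sum_eq_zero fun ω _ => if_neg (hcon2 ω)
    linarith
  have hμ0 : ex (2 * φ) J ≤ μ := mu_low d hφ hA fun ω hω => (hμ ω hω).2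
  have hμp : 0 < μ := lt_of_lt_of_le (ex_pos _ _) hμ0
  obtain ⟨x₁, hx₁⟩ : ∃ x : ℝ, x = 1 / 2 ^ ⌊(N.P1 - N.β 3 - b) * J⌋₊ := ⟨_, rfl⟩
  obtain ⟨x₂, hx₂⟩ : ∃ x : ℝ, x = 2 ^ ⌊(N.fall - b) * J⌋₊ := ⟨_, rfl⟩
  have p1 : 0 < x₁ := by
    rw [hx₁]
    positivity
  have p2 : 0 < x₂ := by
    rw [hx₂]
    positivity
  rcases le_or_gt μ x₂ with hcase | hcase
  swap
  · -- large slopes: the sheet zero
    refine ⟨fun _ _ _ => 0, ?_⟩
    refine le_trans (pe_mono (P2_isLaw hlaw _).nonneg (B := fun _ => False) ?_) ?_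
    · intro e he hbad
      obtain ⟨p1, p2, hs⟩ := (P2_pos hlaw e).1 he
      have a1 := (pA_pos p1).1
      refine hbad ?_
      have h3 : ∀ ω' : F.Ω, d.lb.dev c ⌊N.w0 * J⌋₊ 3 (fun _ _ _ => 0) e.1 ω' ≤
          1 / 2 ^ ⌊(N.P1 - N.β 3 - b) * J⌋₊ + μ / 2 ^ ⌊(N.fall - b) * J⌋₊ := by
        intro ω'
        refine (dev_zero d a1 ω').trans ?_
        rw [← hx₁, ← hx₂]
        have h5 : 1 ≤ μ / x₂ := by
          rw [le_div_iff₀ (by linarith), one_mul]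
          exact hcase.le
        linarith
      refine ⟨h3 _, h3 _, fun i => ?_⟩
      have e4 : ∀ ω' : F.Ω, |d.lb.sh (fun _ _ _ => 0) e.1 ω' i| ≤ 2 ^ ⌊b * J⌋₊ := by
        intro ω'
        show |(0 : ℝ)| ≤ _
        rw [abs_zero]
        positivity
      exact ⟨e4 _, e4 _⟩
    · rw [Pe_eq]
      simp only [if_false, Finset.sum_const_zero]
      exact hc.le
  · -- the sheets
    have hL6 := l6_n d hL1 ((hJ₃ J j3).trans (ex_le (by linarith) J))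
    have hnum := num_n d hsN hφ hL1 hμp (hJ₂ J j2) hbf hbP (e' := e')
    have hε0 : 0 ≤ εn d μ := by
      unfold εn
      have := Real.exp_pos (φ * J)
      positivity
    have hone : 1 / (2 : ℝ) ^ ⌊(N.P1 - N.β 3 - b) * J⌋₊ + μ / 2 ^ ⌊(N.fall - b) * J⌋₊ ≤ 2 := by
      have h3 : x₁ ≤ 1 := by
        rw [hx₁, div_le_one (by positivity)]
        exact one_le_pow₀ one_le_two
      have h4 : μ / x₂ ≤ 1 := by
        rw [div_le_one p2]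
        exact hcase
      rw [← hx₁, ← hx₂]
      linarith
    have hx0 : 0 ≤ 2 ^ d.gU 3 * (ex (-e') J * εn d μ) := by
      have := ex_pos (-e') J
      positivity
    have hlow : ex (N.fall - b + 2 * φ) J ≤
        1 / 2 ^ ⌊(N.P1 - N.β 3 - b) * J⌋₊ + μ / 2 ^ ⌊(N.fall - b) * J⌋₊ := by
      have h3 : ex (N.fall - b + 2 * φ) J ≤ 1 / x₂ * μ := by
        rw [ex_add, hx₂]
        exact mul_le_mul (ex_floor (by linarith) J) hμ0 (ex_pos _ _).le (by positivity)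
      have e6 : 1 / x₂ * μ = μ / x₂ := by ring
      rw [e6] at h3
      rw [← hx₁, ← hx₂]
      linarith
    obtain ⟨lf, hlf⟩ := hF d.toVDat 3 (Gn d) (Ul c d.Q d.u' 3) (Vl c d.Q d.u' 3) (εn d μ)
      (1 / 2 ^ ⌊(N.P1 - N.β 3 - b) * J⌋₊ + μ / 2 ^ ⌊(N.fall - b) * J⌋₊) hε0 (deg_Gn d hK)
      (fun ω hω => hex_n d nm hL6 hω (hμ ω hω).2)
      (fun ω hω => hpx_n d nm hω (hμ ω hω).2)
      (fun ω hω => d.posN ω hω) (by linarith) hnum hlow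
    exact ⟨lf, hlf⟩

end Pool.HSC
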