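import Pool.Agent.H24.HES.Lin

/-!
# The sheets of `v`

`shvS`: the part `ShvS` of a member, from `HesS` and `ConS`.
-/

set_option autoImplicit false

namespace Pool.HSC

open Finset Real MvPolynomial
open Pool.Agent.H49.Ent Pool.Agent.H32.Dense Pool.STK Pool.KA Pool.KSAT Pool.K2S Pool.PB
  Pool.STAT Pool.GEN Pool.M3F Pool.KM7 Pool.S6C Pool.JPN
open Pool.GRW (TmWn)
open Pool.PLN (Nums Dat lpt ConS HesS EzS ex ex_pos ex_add ex_le exp_le_ex nms_cls const_le_ex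
  ex_floor mul_ex_le)
open Pool.PLN.Dat (px_x)
open Pool.PM (VNum VDat MNum MDat q2 ShvS)

variable {m : ℕ}

/-- The polynomial of a label and of a chart. -/
noncomputable def Gv {J : ℕ} {N : VNum} {φ : ℝ} {K : ℕ} {F : Fam m J} {c : ℕ → Fin m}
    {A : F.Ω → Prop} (d : VDat N φ K F c A) (v : d.V × d.U) : MvPolynomial (Fin 3) ℝ :=
  toF 3 0 (C ((2 : ℝ) ^ d.sg) * d.P v.1 3 - d.Q v.2 3)

section member

variable {J : ℕ} {N : VNum} {φ : ℝ} {K : ℕ} {F : Fam m J} {c : ℕ → Fin m} {A : F.Ω → Prop}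
  (d : VDat N φ K F c A)

theorem deg_Gv {K' : ℕ} (hK : K ≤ K') (h1 : 1 ≤ K') (v : d.V × d.U) :
    (Gv d v).totalDegree ≤ K' := by
  unfold Gv
  refine (deg_toF _).trans ((totalDegree_sub _ _).trans (max_le ?_ ((d.aff _ _).trans h1)))
  refine (totalDegree_mul _ _).trans ?_
  rw [totalDegree_C, zero_add]
  exact (d.lab.deg _ _).trans hK

theorem eval_Gv (v : d.V × d.U) (b : ℕ → ℝ) : eval (fun i : Fin 3 => b i) (Gv d v) =
    2 ^ d.sg * eval b (d.P v.1 3) - eval b (d.Q v.2 3) := by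
  have h : (C ((2 : ℝ) ^ d.sg) * d.P v.1 3 - d.Q v.2 3).vars ⊆ range 3 := by
    refine Finset.Subset.trans (vars_sub_subset (p := C ((2 : ℝ) ^ d.sg) * d.P v.1 3)
      (q := d.Q v.2 3)) (union_subset (Finset.Subset.trans (vars_mul _ _) (union_subset ?_ ?_)) ?_)
    · rw [vars_C]
      exact empty_subset _
    · exact d.lab.tri _ 3
    · exact d.tri _ 3
  unfold Gv
  rw [ev_toF h, map_sub, map_mul, eval_C]

/-- The sample and its leaf, rounded. -/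
theorem pxv {ω : F.Ω} (hω : A ω) :
    |px c (ptr F J ω) 3 - 2 ^ d.sg * eval (px c (ptr F J ω)) (d.P (d.z (ptr F J ω)) 3)| ≤
      2 ^ d.sg * (1 / 2 ^ d.g' 2 + 1 / 2 ^ J) := by
  have h1 := d.lab.posN ω hω
  have p2 : (0 : ℝ) < 2 ^ d.sg := by positivity
  have e1 : px c (ptr F J ω) 3 - 2 ^ d.sg * eval (px c (ptr F J ω)) (d.P (d.z (ptr F J ω)) 3) =
      2 ^ d.sg * (px c (ptr F J ω) (2 + 1) / 2 ^ d.sg -
        eval (px c (ptr F J ω)) (d.P (d.z (ptr F J ω)) (2 + 1))) := by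
    field_simp
  rw [e1, abs_mul, abs_of_pos p2]
  exact mul_le_mul_of_nonneg_left h1 p2.le

/-- The sample and its leaf, exact. -/
theorem exv (nm : d.toDat.Nms) {ω : F.Ω} (hω : A ω) :
    |F.x ω (c 2) - 2 ^ d.sg * eval (xt F c ω) (d.P (d.z (ptr F J ω)) 3)| ≤
      2 ^ d.sg * (1 / 2 ^ d.g' 2 + (2 + 6 * d.L) * (1 / 2 ^ J)) := by
  have p2 : (1 : ℝ) ≤ 2 ^ d.sg := one_le_pow₀ one_le_two
  have pJ : (0 : ℝ) < 1 / 2 ^ J := by positivity
  have h1 := pxv d hω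
  have h2 := px_x (F := F) c ω 2
  have h3 := (d.toDat.bx_near nm hω (b := xt F c ω) (fun l _ => (xt_px F c ω l).trans (by
    rw [div_le_div_iff_of_pos_right (by positivity)]
    norm_num))).2
  have e1 : F.x ω (c 2) - 2 ^ d.sg * eval (xt F c ω) (d.P (d.z (ptr F J ω)) 3) =
      (px c (ptr F J ω) 3 - 2 ^ d.sg * eval (px c (ptr F J ω)) (d.P (d.z (ptr F J ω)) 3)) -
      (px c (ptr F J ω) (2 + 1) - F.x ω (c 2)) -
      2 ^ d.sg * (eval (xt F c ω) (d.P (d.z (ptr F J ω)) 3) -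
        eval (px c (ptr F J ω)) (d.P (d.z (ptr F J ω)) 3)) := by ring
  rw [e1]
  have h4 : |2 ^ d.sg * (eval (xt F c ω) (d.P (d.z (ptr F J ω)) 3) -
      eval (px c (ptr F J ω)) (d.P (d.z (ptr F J ω)) 3))| ≤
      2 ^ d.sg * (3 * d.L * (2 / 2 ^ J)) := by
    rw [abs_mul, abs_of_pos (by positivity : (0 : ℝ) < 2 ^ d.sg)]
    exact mul_le_mul_of_nonneg_left h3 (by positivity)
  refine (abs_sub _ _).trans ((add_le_add ((abs_sub _ _).trans (add_le_add h1 h2)) h4).trans ?_)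
  have h5 : 1 / (2 : ℝ) ^ J ≤ 2 ^ d.sg * (1 / 2 ^ J) := le_mul_of_one_le_left pJ.le p2
  have e2 : (2 : ℝ) ^ d.sg * (3 * d.L * (2 / 2 ^ J)) =
      6 * d.L * (2 ^ d.sg * (1 / 2 ^ J)) := by ring
  rw [e2]
  nlinarith

end member

/-- **The sheets of `v`.** -/
theorem shvS {S : PCl m}
    (hpos : ∀ (τ : ℝ) (J : ℕ) (F : Fam m J) (A : F.Ω → Prop), S.St τ J F A → 0 < Pe F.p A)
    {c : ℕ → Fin m} {N : VNum} {K K' : ℕ} {h e' b : ℝ} (htw : TmWn S N.w0)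
    (hez : ∀ b c₁ : ℝ, 0 < b → 0 < c₁ → EzS S c N.toNums K b c₁) (h0 : 0 ≤ N.w0)
    (h01 : N.w0 ≤ N.w1)
    (h1 : N.w1 < 1) (hg0 : N.g 0 < 1) (hg1 : N.g 1 < 1) (hh : 0 < h) (hb : 2 * h < b)
    (he : 0 < e') (heb : e' < b) (hbf : b ≤ N.fall) (hβ0 : N.w0 ≤ N.β 0) (hβ1 : N.g0 1 ≤ N.β 1)
    (hw : N.w0 + N.fall ≤ 1) (hg : N.g0 1 + N.fall ≤ 1) (hK : K ≤ K') (hK1 : 1 ≤ K')
    (hcon : ∀ c₁ : ℝ, 0 < c₁ → ConS S c N.toNums K h c₁)
    (hhes : ∀ c₁ : ℝ, 0 < c₁ → HesS S c N.toNums N.toNums K K K' e' c₁) {c₀ : ℝ} (hc : 0 < c₀) :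
    ShvS S c N K b c₀ := by
  obtain ⟨φd, hφd, J₁, hnms⟩ := nms_cls (N := N.toNums) h0 h01 h1 hg0 hg1
  obtain ⟨φ₁, hφ₁⟩ : ∃ φ₁ : ℝ, φ₁ = min φd ((b - e') / 10) := ⟨_, rfl⟩
  have hφ₁0 : 0 < φ₁ := by
    rw [hφ₁]
    exact lt_min hφd (by linarith)
  obtain ⟨φ, hφ, hφφ, hB⟩ := sh_cls hpos htw hez h0 h01 h1 hg0 hg1 hh hb he hbf hβ0 hβ1 hw hg hcon hhes hc
    hφ₁0
  have ud : φ ≤ φd := hφφ.trans (by
    rw [hφ₁]
    exact min_le_left _ _)
  have ue : φ ≤ (b - e') / 10 := hφφ.trans (by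
    rw [hφ₁]
    exact min_le_right _ _)
  obtain ⟨J₂, hJ₂⟩ := const_le_ex 192 (b := b - (e' + 5 * φ)) (by linarith)
  refine ⟨φ, hφ, hB.mono (max J₁ J₂) ?_⟩
  intro J hJ F A hF d
  have j1 : J ≥ J₁ := (le_max_left _ _).trans hJ
  have j2 : J ≥ J₂ := (le_max_right _ _).trans hJ
  have hJ0 : (0 : ℝ) ≤ J := Nat.cast_nonneg J
  have nm := hnms φ hφ ud J j1 d.toDat
  have hL := d.L0
  obtain ⟨ε, hε⟩ : ∃ ε : ℝ, ε = 2 ^ d.sg * (1 / 2 ^ d.g' 2 + (2 + 6 * d.L) * (1 / 2 ^ J)) :=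
    ⟨_, rfl⟩
  have hε0 : 0 ≤ ε := by
    rw [hε]
    positivity
  -- the number
  have hnum : 32 * (2 ^ d.gU 2 * (ex (-e') J * ε)) ≤ 1 / 2 ^ ⌊(N.fall - b) * J⌋₊ := by
    have hL1 : 1 + d.L ≤ ex (-(2 * φ)) J := by
      refine le_trans ?_ (exp_le_ex hφ.le J)
      rw [← Real.log_le_iff_le_exp (by linarith)]
      exact d.L1
    have a1 : (1 : ℝ) / 2 ^ J ≤ 1 / 2 ^ d.g' 2 :=
      one_div_le_one_div_of_le (by positivity) (pow_le_pow_right₀ one_le_two d.top)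
    have a2 : ε ≤ 2 ^ d.sg * (1 / 2 ^ d.g' 2) * (6 * ex (-(2 * φ)) J) := by
      have h2 : (2 + 6 * d.L) * (1 / 2 ^ J) ≤ (2 + 6 * d.L) * (1 / 2 ^ d.g' 2) :=
        mul_le_mul_of_nonneg_left a1 (by linarith)
      have h3 : (1 : ℝ) / 2 ^ d.g' 2 + (2 + 6 * d.L) * (1 / 2 ^ J) ≤
          (1 / 2 ^ d.g' 2) * (6 * ex (-(2 * φ)) J) := by
        have h4 : (1 : ℝ) / 2 ^ d.g' 2 + (2 + 6 * d.L) * (1 / 2 ^ d.g' 2) =
            (1 / 2 ^ d.g' 2) * (3 + 6 * d.L) := by ring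
        have h5 : (1 / (2 : ℝ) ^ d.g' 2) * (3 + 6 * d.L) ≤
            (1 / 2 ^ d.g' 2) * (6 * ex (-(2 * φ)) J) :=
          mul_le_mul_of_nonneg_left (by linarith) (by positivity)
        linarith
      rw [hε, mul_assoc]
      exact mul_le_mul_of_nonneg_left h3 (by positivity)
    have b1 := (abs_le.1 (d.numU 2 (by norm_num))).2
    have b2 := (abs_le.1 (d.num 2 le_rfl)).1
    have b3 := (abs_le.1 d.nums).2
    have a3 : (2 : ℝ) ^ (d.gU 2 + d.sg) / 2 ^ d.g' 2 ≤ ex (-(-(N.fall - 3 * φ))) J := by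
      refine quo_two ?_
      have e1 : N.fall = N.g 2 - N.s - N.β 2 := rfl
      push_cast
      rw [e1]
      nlinarith
    rw [neg_neg] at a3
    have a4 : 2 ^ d.gU 2 * (2 ^ d.sg * (1 / 2 ^ d.g' 2)) ≤ ex (N.fall - 3 * φ) J := by
      refine le_trans (le_of_eq ?_) a3
      rw [pow_add]
      ring
    have p1 := ex_pos (-e') J
    have p2 := ex_pos (-(2 * φ)) J
    calc 32 * (2 ^ d.gU 2 * (ex (-e') J * ε)) ≤ 32 * (2 ^ d.gU 2 * (ex (-e') J *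
          (2 ^ d.sg * (1 / 2 ^ d.g' 2) * (6 * ex (-(2 * φ)) J)))) :=
          mul_le_mul_of_nonneg_left (mul_le_mul_of_nonneg_left
            (mul_le_mul_of_nonneg_left a2 p1.le) (by positivity)) (by norm_num)
      _ = 192 * (ex (-e') J * ex (-(2 * φ)) J) * (2 ^ d.gU 2 * (2 ^ d.sg * (1 / 2 ^ d.g' 2))) := by
          ring
      _ ≤ 192 * (ex (-e') J * ex (-(2 * φ)) J) * ex (N.fall - 3 * φ) J :=
          mul_le_mul_of_nonneg_left a4 (by positivity)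
      _ = 192 * ex (N.fall - e' - 5 * φ) J := by
          have e1 : ex (N.fall - e' - 5 * φ) J =
              (ex (-e') J * ex (-(2 * φ)) J) * ex (N.fall - 3 * φ) J := by
            rw [← ex_add, ← ex_add]
            congr 1
            ring
          rw [e1]
          ring
      _ ≤ ex (N.fall - b) J := by
          refine mul_ex_le ((hJ₂ J j2).trans (ex_le ?_ J))
          linarith
      _ ≤ 1 / 2 ^ ⌊(N.fall - b) * J⌋₊ := ex_floor (by linarith) J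
  have hone : (1 : ℝ) / 2 ^ ⌊(N.fall - b) * J⌋₊ ≤ 1 := by
    rw [div_le_one (by positivity)]
    exact one_le_pow₀ one_le_two
  have hx0 : 0 ≤ 2 ^ d.gU 2 * (ex (-e') J * ε) := by
    have := ex_pos (-e') J
    positivity
  obtain ⟨lf, hlf⟩ := hF d 2 (Gv d) (Ul c d.Q d.u' 2) (Vl c d.Q d.u' 2) ε
    (1 / 2 ^ ⌊(N.fall - b) * J⌋₊) hε0 (deg_Gv d hK hK1) (by
      intro ω hω
      rw [ul_vl d 2 hω, lpt_xt, eval_Gv]
      have e1 : F.x ω (c 2) - eval (xt F c ω) (d.Q (d.u (ptr F J ω)) (2 + 1)) -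
          (2 ^ d.sg * eval (xt F c ω) (d.P (d.z (ptr F J ω)) 3) -
            eval (xt F c ω) (d.Q (d.u (ptr F J ω)) 3)) =
          F.x ω (c 2) - 2 ^ d.sg * eval (xt F c ω) (d.P (d.z (ptr F J ω)) 3) := by ring
      rw [e1, hε]
      exact exv d nm hω) (by
      intro ω hω
      have e1 : ntc F c d.Q d.u ω 2 - eval (px3 F c ω) (Gv d (d.z (ptr F J ω), d.u (ptr F J ω))) =
          px c (ptr F J ω) 3 - 2 ^ d.sg *
            eval (px c (ptr F J ω)) (d.P (d.z (ptr F J ω)) 3) := by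
        have e2 : eval (px3 F c ω) (Gv d (d.z (ptr F J ω), d.u (ptr F J ω))) = _ :=
          eval_Gv d (d.z (ptr F J ω), d.u (ptr F J ω)) (px c (ptr F J ω))
        rw [e2]
        unfold Pool.JPN.ntc
        ring
      rw [e1, hε]
      refine (pxv d hω).trans (mul_le_mul_of_nonneg_left ?_ (by positivity))
      have h5 : 1 * (1 / (2 : ℝ) ^ J) ≤ (2 + 6 * d.L) * (1 / 2 ^ J) :=
        mul_le_mul_of_nonneg_right (by linarith) (by positivity)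
      linarith)
    (fun ω hω => d.posU ω hω 2 (by norm_num)) (by linarith) hnum
    ((ex_le (by linarith) J).trans (ex_floor (show 0 ≤ N.fall - b by linarith) J))
  refine ⟨lf, hlf⟩

end Pool.HSC
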